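import Pool.Agent.Y756.T.Hold5

set_option autoImplicit false

/-! Even moments of a weighted auxiliary Dirichlet polynomial. -/

namespace Pool.Agent.Y756.T

open Finset Filter Topology MeasureTheory Complex
open Pool.Agent.H306R2 Pool.Agent.H306R2.SM Pool.Agent.H223.EM
open Pool.Agent.H133R2.EM11 (Af Cf PG_Af PG_Cf Af_norm Cf_norm z2_bound)

noncomputable section

/-- admissible one-dimensional weights, supported in `[0, θ]` -/
structure W1 (W : ℝ → ℝ) (θ : ℝ) : Prop where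
  cont : Continuous W
  nn : ∀ u, 0 ≤ W u
  le1 : ∀ u, 0 ≤ u → W u ≤ 1
  z : ∀ u, θ ≤ u → W u = 0

/-- weighted coefficients -/
def aW (e : ℝ) (W : ℝ → ℝ) (T : ℝ) : ArithmeticFunction ℝ :=
  ⟨fun n => dv e n * W (Real.log n / Real.log T), by simp [dv]⟩

lemma aW_apply (e : ℝ) (W : ℝ → ℝ) (T : ℝ) (n : ℕ) :
    aW e W T n = dv e n * W (Real.log n / Real.log T) := rfl

/-- Cauchy's inequality for convolutions -/
lemma conv_cs {a b p q r s : ArithmeticFunction ℝ}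
    (hp : ∀ n, 0 ≤ p n) (hq : ∀ n, 0 ≤ q n) (hr : ∀ n, 0 ≤ r n) (hs : ∀ n, 0 ≤ s n)
    (h1 : ∀ n, a n ^ 2 ≤ p n * r n) (h2 : ∀ n, b n ^ 2 ≤ q n * s n) (n : ℕ) :
    (a * b) n ^ 2 ≤ (p * q) n * (r * s) n := by
  rw [ArithmeticFunction.mul_apply, ArithmeticFunction.mul_apply, ArithmeticFunction.mul_apply]
  have key : |∑ x ∈ n.divisorsAntidiagonal, a x.1 * b x.2| ≤
      ∑ x ∈ n.divisorsAntidiagonal, Real.sqrt (p x.1 * q x.2) * Real.sqrt (r x.1 * s x.2) := by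
    refine (abs_sum_le_sum_abs _ _).trans (sum_le_sum fun x _ => ?_)
    rw [← Real.sqrt_mul (mul_nonneg (hp _) (hq _))]
    apply Real.le_sqrt_of_sq_le
    rw [sq_abs, mul_pow]
    calc a x.1 ^ 2 * b x.2 ^ 2 ≤ (p x.1 * r x.1) * (q x.2 * s x.2) :=
          mul_le_mul (h1 _) (h2 _) (sq_nonneg _) (mul_nonneg (hp _) (hr _))
      _ = _ := by ring
  have h3 := Real.sum_sqrt_mul_sqrt_le n.divisorsAntidiagonal
    (f := fun x => p x.1 * q x.2) (g := fun x => r x.1 * s x.2)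
    (fun x => mul_nonneg (hp _) (hq _)) (fun x => mul_nonneg (hr _) (hs _))
  have hP : 0 ≤ ∑ x ∈ n.divisorsAntidiagonal, p x.1 * q x.2 :=
    sum_nonneg fun x _ => mul_nonneg (hp _) (hq _)
  have hR : 0 ≤ ∑ x ∈ n.divisorsAntidiagonal, r x.1 * s x.2 :=
    sum_nonneg fun x _ => mul_nonneg (hr _) (hs _)
  have h4 := key.trans h3
  have h5 := pow_le_pow_left₀ (abs_nonneg _) h4 2
  rw [sq_abs, mul_pow, Real.sq_sqrt hP, Real.sq_sqrt hR] at h5
  exact h5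

lemma aW_nonneg {e : ℝ} (he : 0 ≤ e) {W : ℝ → ℝ} {θ : ℝ} (hW : W1 W θ) (T : ℝ) (n : ℕ) :
    0 ≤ aW e W T n := mul_nonneg (dv_nonneg he n) (hW.nn _)

lemma aW2_nonneg {e : ℝ} (he : 0 ≤ e) (W : ℝ → ℝ) (T : ℝ) (n : ℕ) :
    0 ≤ aW e (fun u => W u ^ 2) T n := mul_nonneg (dv_nonneg he n) (sq_nonneg _)

lemma pow_nonneg_af {A : ArithmeticFunction ℝ} (hA : ∀ n, 0 ≤ A n) (q n : ℕ) : 0 ≤ (A ^ q) n := by
  rw [pow_eq_prod_af]
  exact prod_nonneg_af _ _ (fun _ n => hA n) n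

lemma aW_pow_sq {e : ℝ} (he : 0 ≤ e) {W : ℝ → ℝ} {θ : ℝ} (_hW : W1 W θ) (T : ℝ) (q n : ℕ) :
    (aW e W T ^ q) n ^ 2 ≤ (aW e (fun u => W u ^ 2) T ^ q) n * dv (q * e) n := by
  have h : ∀ q n : ℕ, (aW e W T ^ q) n ^ 2 ≤ (aW e (fun u => W u ^ 2) T ^ q) n * (dA e ^ q) n := by
    intro q
    induction q with
    | zero =>
      intro n
      rw [pow_zero, pow_zero, pow_zero, ArithmeticFunction.one_apply]
      split_ifs <;> norm_num
    | succ q ih =>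
      intro n
      rw [pow_succ, pow_succ, pow_succ]
      refine conv_cs (fun n => pow_nonneg_af (aW2_nonneg he W T) q n) (aW2_nonneg he W T)
        (fun n => ?_) (fun n => dv_nonneg he n) ih (fun n => ?_) n
      · exact pow_nonneg_af (fun m => dv_nonneg he m) q n
      · rw [aW_apply, aW_apply, dA_apply]
        apply le_of_eq
        ring
  have := h q n
  rwa [dA_pow, dA_apply] at this

/-- the weighted coefficient sum -/
lemma K_sumW (e : ℝ) (he : 0 < e) (q : ℕ) (hq : 1 ≤ q) {W : ℝ → ℝ} {θ : ℝ} (hθ : 0 ≤ θ)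
    (hW : W1 W θ) (C : ℝ)
    (hC : aF (q * e) * (∫ u : ℝ, gd ((q * e) * e) u * W u ^ 2) ^ q < C) (Y : ℝ → ℝ) :
    ∀ᶠ T : ℝ in atTop, ∑ m ∈ Icc 1 ⌊Y T⌋₊, (aW e W T ^ q) m * (aW e W T ^ q) m / m ≤
      C * Real.log T ^ ((q * e) ^ 2) := by
  have hκ : ∑ _i : Fin q, e = q * e := by rw [sum_const, card_univ, Fintype.card_fin, nsmul_eq_mul]
  have hκ0 : 0 < (q:ℝ) * e := by positivity
  have H := wt_KH (fun _ : Fin q => e) (fun _ => he) hq
  have hlim := fun s hs => wt_tendsto (fun _ : Fin q => e) (fun _ => he) hq s hs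
  rw [hκ] at H
  simp only [hκ] at hlim
  set κ := (q:ℝ) * e with hκd
  set φ : (Fin q → ℝ) → ℝ := fun u => ∏ i, W (u i) ^ 2 with hφ
  have hφc : Continuous φ := continuous_finsetProd _ fun i _ =>
    (hW.cont.comp (continuous_apply i)).pow 2
  have hφ0 : ∀ u : Fin q → ℝ, (∀ i, 0 ≤ u i) → (∃ i, θ ≤ u i) → φ u = 0 := by
    rintro u - ⟨i, hi⟩
    exact prod_eq_zero (mem_univ i) (by rw [hW.z _ hi]; norm_num)
  have hφn : ∀ u, 0 ≤ φ u := fun u => prod_nonneg fun i _ => sq_nonneg _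
  have hk := karamata H (κ ^ 2) (aF κ) (aF_pos hκ0).le (fun _ => κ * e) (fun _ => by positivity)
    hlim φ hφc θ hφ0 hθ
  have hint : ∫ u : Fin q → ℝ, Gd (fun _ => κ * e) u * φ u =
      (∫ u : ℝ, gd (κ * e) u * W u ^ 2) ^ q := by
    unfold Gd
    rw [hφ]
    simp only [← prod_mul_distrib]
    rw [integral_fintype_prod_volume_eq_prod (fun (_ : Fin q) u => gd (κ * e) u * W u ^ 2)]
    rw [prod_const, card_univ, Fintype.card_fin]
  rw [hint] at hk
  have hk2 := (Real.tendsto_log_atTop).eventually (hk.eventually_lt_const hC)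
  filter_upwards [hk2, eventually_gt_atTop 1] with T hT hT1
  have hL : 0 < Real.log T := Real.log_pos hT1
  rw [div_lt_iff₀ (by positivity)] at hT
  refine le_trans ?_ hT.le
  set g : Fin q → ArithmeticFunction ℝ := fun _ => aW e (fun u => W u ^ 2) T with hg
  have hs := Fb_hasSum hκ0.le (Y T) g (fun i n => aW2_nonneg he.le W T n)
  have h1 : ∑ m ∈ Icc 1 ⌊Y T⌋₊, (aW e W T ^ q) m * (aW e W T ^ q) m / m ≤
      ∑ m ∈ Icc 1 ⌊Y T⌋₊, (∏ i, g i) m * dv κ m / m := by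
    refine sum_le_sum fun m _ => ?_
    rw [hg, ← pow_eq_prod_af]
    have := aW_pow_sq he.le hW T q m
    rw [pow_two] at this
    gcongr
  refine h1.trans ?_
  rw [← hs.tsum_eq]
  refine Summable.tsum_le_tsum (fun b => ?_) hs.summable (tf_summable H φ hφc θ hφ0 hθ hL)
  have hwt : Fb κ (Y T) g b ≤ (dv κ (∏ i, b i) / (∏ i, b i : ℕ)) * ∏ i, g i (b i) := by
    unfold Fb
    refine mul_le_mul_of_nonneg_right ?_ (prod_nonneg fun i _ => aW2_nonneg he.le W T _)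
    split_ifs
    · exact le_rfl
    · exact div_nonneg (dv_nonneg hκ0.le _) (Nat.cast_nonneg _)
  refine hwt.trans (le_of_eq ?_)
  unfold wt
  rw [hφ, hg]
  simp only [aW_apply]
  rw [Nat.cast_prod, prod_mul_distrib, prod_div_distrib]
  unfold pos
  ring

/-- upper bound for the `2q`-th moment -/
theorem AmW (e : ℝ) (he : 0 < e) (q : ℕ) (hq : 1 ≤ q) {W : ℝ → ℝ} {θ : ℝ} (hθ : 0 < θ)
    (hW : W1 W θ) (hqθ : q * θ < 1) (C : ℝ)
    (hC : aF (q * e) * (∫ u : ℝ, gd ((q * e) * e) u * W u ^ 2) ^ q < C) :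
    ∀ᶠ T : ℝ in atTop, ∀ k : ℕ, kr' T k →
      ∫ t in Set.Ioi (0 : ℝ), om k (k / T) t * ‖Af ⌊T ^ θ⌋₊ (aW e W T) t‖ ^ (2 * q) ≤
      C * Real.log T ^ ((q * e) ^ 2) := by
  obtain ⟨C', hC1, hC2⟩ := exists_between hC
  have hq0 : (0 : ℝ) < q := by exact_mod_cast hq
  have hK := K_sumW e he q hq hθ.le hW C' hC1 (fun T => T ^ (q * θ))
  set J : ℕ := ⌈(q : ℝ) * e⌉₊ with hJ
  have hJ1 : (q : ℝ) * e ≤ J := Nat.le_ceil _
  have hsp := small_powB (1 - q * θ) (by linarith) (2 * (J + 1)) (by positivity)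
  have h2 : ∀ᶠ T : ℝ in atTop, 1 ≤ (C - C') * Real.log T ^ (((q : ℝ) * e) ^ 2) := by
    have : Tendsto (fun T => (C - C') * Real.log T ^ (((q : ℝ) * e) ^ 2)) atTop atTop :=
      ((tendsto_rpow_atTop (by positivity)).comp Real.tendsto_log_atTop).const_mul_atTop
        (by linarith)
    exact this.eventually_ge_atTop 1
  filter_upwards [hK, hsp, h2, eventually_gt_atTop (Real.exp 1)] with T hK hsp h2 hT k hkr
  have hT1 : 1 < T := lt_trans (by
    have := Real.add_one_lt_exp (show (1 : ℝ) ≠ 0 by norm_num)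
    linarith) hT
  have hT0 : 0 < T := by linarith
  have hL : 1 < Real.log T := by
    rw [Real.lt_log_iff_exp_lt hT0]; exact hT
  have hL0 : 0 < Real.log T := by linarith
  have hk1 : (1 : ℝ) < k := by nlinarith [hkr.1]
  have hδ : 0 < (k : ℝ) / T := by positivity
  set Y := T ^ (q * θ) with hY
  have hY1 : 1 ≤ Y := Real.one_le_rpow hT1.le (by positivity)
  have hYT : Y ≤ T := by
    conv_rhs => rw [← Real.rpow_one T]
    exact Real.rpow_le_rpow_of_exponent_le hT1.le hqθ.le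
  set X := T ^ θ with hX
  have hX1 : 1 ≤ X := Real.one_le_rpow hT1.le hθ.le
  have hXq : X ^ q = Y := by
    rw [hX, ← Real.rpow_natCast, ← Real.rpow_mul hT0.le, mul_comm]
  set A := aW e W T with hA
  set B : ArithmeticFunction ℝ := A ^ q with hB
  have hA0 : ∀ n, 0 ≤ A n := aW_nonneg he.le hW T
  have hAsupp : ∀ n : ℕ, X < n → A n = 0 := by
    intro n hn
    have hn0 : (0 : ℝ) < n := by linarith
    have h3 : θ ≤ Real.log n / Real.log T := by
      rw [le_div_iff₀ hL0, ← Real.log_rpow hT0]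
      exact Real.log_le_log (by positivity) hn.le
    rw [hA, aW_apply, hW.z _ h3, mul_zero]
  have hBn : ∀ m, 0 ≤ B m := fun m => pow_nonneg_af hA0 q m
  have hBle : ∀ m, B m ≤ (m : ℝ) ^ J := by
    intro m
    have h3 : B m ≤ dv (q * e) m := by
      rw [← dA_apply, ← dA_pow, hB, pow_eq_prod_af, pow_eq_prod_af]
      refine prod_mono_af _ _ _ (fun _ n => hA0 n) (fun _ n => ?_) m
      rw [hA, aW_apply, dA_apply]
      exact mul_le_of_le_one_right (dv_nonneg he.le n)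
        (hW.le1 _ (div_nonneg (Real.log_natCast_nonneg _) hL0.le))
    refine h3.trans ?_
    have := PB_dA (α := (q : ℝ) * e) (by positivity) (J := J) hJ1 m
    exact (le_abs_self _).trans this
  have hpow : ∀ t : ℝ, Af ⌊X⌋₊ A t ^ q = Af ⌊Y⌋₊ B t := by
    intro t
    rw [Af_eq_Dp, Af_eq_Dp, ← (Dp_pow A X hX1 hAsupp (cl t) q).2, hXq]
  set N := ⌊Y⌋₊ with hN
  have hNY : (N : ℝ) ≤ Y := Nat.floor_le (by linarith)
  have hYe : T ^ (1 - (1 - q * θ)) = Y := by rw [hY]; congr 1; ring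
  have hG : 0 < 1 / (2 * T ^ (1 - (1 - q * θ))) := by positivity
  have hnd := norm_diag (Icc 1 N) (fun m => ((B m / Real.sqrt m : ℝ) : ℂ)) (fun m => Real.log m)
    (1 / (2 * T ^ (1 - (1 - q * θ)))) hG (by
      intro i hi j hj hij
      rw [mem_Icc] at hi hj
      rw [hYe]
      exact Pool.Agent.H329R2.MS5.log_sep hi.1 hj.1 hij
        (le_trans (by exact_mod_cast hi.2) hNY) (le_trans (by exact_mod_cast hj.2) hNY))
      k (k / T) hδ
  have e1 : (∫ t in Set.Ioi (0 : ℝ), om k (k / T) t * ‖Af ⌊X⌋₊ A t‖ ^ (2 * q)) =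
      ∫ t in Set.Ioi (0 : ℝ), om k (k / T) t *
        ‖∑ i ∈ Icc 1 N, ((B i / Real.sqrt i : ℝ) : ℂ) * ef (-(Real.log i)) t‖ ^ 2 := by
    refine integral_congr_ae (Eventually.of_forall fun t => ?_)
    simp only
    rw [mul_comm 2 q, pow_mul, ← norm_pow, hpow t]
    rfl
  rw [e1]
  have h4 := (abs_le.mp hnd).2
  have e2 : ∑ i ∈ Icc 1 N, ‖((B i / Real.sqrt i : ℝ) : ℂ)‖ ^ 2 = ∑ m ∈ Icc 1 N, B m * B m / m := by
    refine sum_congr rfl fun m hm => ?_
    rw [Complex.norm_real, Real.norm_eq_abs, sq_abs, div_pow, Real.sq_sqrt (Nat.cast_nonneg _), sq]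
  rw [e2] at h4
  have h5 : ∑ i ∈ Icc 1 N, ‖((B i / Real.sqrt i : ℝ) : ℂ)‖ ≤ T ^ ((J : ℝ) + 1) := by
    have h6 : ∀ i ∈ Icc 1 N, ‖((B i / Real.sqrt i : ℝ) : ℂ)‖ ≤ Y ^ J := by
      intro i hi
      rw [mem_Icc] at hi
      have hi1 : (1 : ℝ) ≤ i := by exact_mod_cast hi.1
      have hiY : (i : ℝ) ≤ Y := le_trans (by exact_mod_cast hi.2) hNY
      rw [Complex.norm_real, Real.norm_of_nonneg (div_nonneg (hBn i) (Real.sqrt_nonneg _))]
      have hs : 1 ≤ Real.sqrt i := by rw [Real.one_le_sqrt]; exact hi1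
      calc B i / Real.sqrt i ≤ B i := div_le_self (hBn i) hs
        _ ≤ (i : ℝ) ^ J := hBle i
        _ ≤ Y ^ J := pow_le_pow_left₀ (by positivity) hiY J
    refine (sum_le_card_nsmul _ _ _ h6).trans ?_
    rw [nsmul_eq_mul, Nat.card_Icc, Nat.add_sub_cancel, Real.rpow_add hT0, Real.rpow_one,
      Real.rpow_natCast, mul_comm]
    have h7 : Y ^ J ≤ T ^ J := pow_le_pow_left₀ (by linarith) hYT J
    have h8 : (N : ℝ) ≤ T := hNY.trans hYT
    exact mul_le_mul h7 h8 (by positivity) (by positivity)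
  have h9 : (∑ i ∈ Icc 1 N, ‖((B i / Real.sqrt i : ℝ) : ℂ)‖) ^ 2 *
      ((k / T) / (1 / (2 * T ^ (1 - (1 - q * θ))))) ^ (k + 1) ≤ 1 := by
    have h0 : 0 ≤ ∑ i ∈ Icc 1 N, ‖((B i / Real.sqrt i : ℝ) : ℂ)‖ :=
      sum_nonneg fun _ _ => norm_nonneg _
    calc _ ≤ (T ^ ((J : ℝ) + 1)) ^ 2 * T ^ (-(2 * ((J : ℝ) + 1))) :=
          mul_le_mul (pow_le_pow_left₀ h0 h5 2) (hsp k hkr) (by positivity) (by positivity)
      _ = 1 := by
          rw [← Real.rpow_natCast, ← Real.rpow_mul hT0.le, ← Real.rpow_add hT0]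
          push_cast
          rw [show ((J : ℝ) + 1) * 2 + -(2 * ((J : ℝ) + 1)) = 0 by ring, Real.rpow_zero]
  have hK' : ∑ m ∈ Icc 1 N, B m * B m / m ≤ C' * Real.log T ^ (((q : ℝ) * e) ^ 2) := hK
  linarith

end

end Pool.Agent.Y756.T
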