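import Pool.Agent.Y756.K.Int3
import Pool.Agent.Y756.T.Fin5
import Pool.Agent.W184.Coef

set_option autoImplicit false

/-! The lower bound for the third moment. -/

namespace Pool.Agent.Y756.T

open Finset Filter Topology MeasureTheory Complex
open Pool.Agent.H306R2 Pool.Agent.H306R2.SM
open Pool.Agent.H223.EM hiding mw
open Pool.Agent.H133R2.EM11 (Af Cf PG_Af PG_Cf Af_norm Cf_norm z2_bound)

noncomputable section

lemma young3 {x y ν : ℝ} (hx : 0 ≤ x) (hν : 0 < ν) :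
    x ^ 2 * y ^ 2 ≤ (2 * ν⁻¹ * x ^ 3 + ν ^ 2 * y ^ 6) / 3 := by
  set b := ν * y ^ 2 with hb
  have hb0 : 0 ≤ b := by positivity
  have h1 : 0 ≤ (x - b) ^ 2 * (2 * x + b) := by positivity
  have h2 : (x - b) ^ 2 * (2 * x + b) = 2 * x ^ 3 - 3 * x ^ 2 * b + b ^ 3 := by ring
  rw [h2] at h1
  have h3 : x ^ 2 * y ^ 2 * ν ≤ (2 * x ^ 3 + ν ^ 3 * y ^ 6) / 3 := by
    have : b ^ 3 = ν ^ 3 * y ^ 6 := by rw [hb]; ring
    rw [this] at h1
    have h4 : x ^ 2 * b = x ^ 2 * y ^ 2 * ν := by rw [hb]; ring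
    linarith
  have h5 : (2 * ν⁻¹ * x ^ 3 + ν ^ 2 * y ^ 6) / 3 = (2 * x ^ 3 + ν ^ 3 * y ^ 6) / 3 / ν := by
    field_simp
  rw [h5, le_div_iff₀ hν]
  exact h3

lemma hold3 {k : ℕ} {δ : ℝ} (hδ : 0 < δ) {A : ℝ → ℂ} (pA : Pool.Agent.H284R2.EM.PG A)
    {ν : ℝ} (hν : 0 < ν) :
    ∫ t in Set.Ioi (0 : ℝ), om k δ t * (‖riemannZeta (cl t)‖ ^ 2 * ‖A t‖ ^ 2) ≤
      (2 * ν⁻¹ * (∫ t in Set.Ioi (0 : ℝ), om k δ t * ‖riemannZeta (cl t)‖ ^ 3) +
        ν ^ 2 * (∫ t in Set.Ioi (0 : ℝ), om k δ t * ‖A t‖ ^ 6)) / 3 := by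
  have pz := Pool.Agent.H284R2.EM.PG.zeta
  have i1 := ipow pz k hδ 3
  have i2 := ipow pA k hδ 6
  have e : (2 * ν⁻¹ * (∫ t in Set.Ioi (0 : ℝ), om k δ t * ‖riemannZeta (cl t)‖ ^ 3) +
      ν ^ 2 * (∫ t in Set.Ioi (0 : ℝ), om k δ t * ‖A t‖ ^ 6)) / 3 =
      ∫ t in Set.Ioi (0 : ℝ), (2 * ν⁻¹ / 3 * (om k δ t * ‖riemannZeta (cl t)‖ ^ 3) +
        ν ^ 2 / 3 * (om k δ t * ‖A t‖ ^ 6)) := by
    rw [integral_add (i1.const_mul _) (i2.const_mul _), integral_const_mul, integral_const_mul]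
    ring
  have i3 : IntegrableOn (fun t : ℝ => om k δ t * (‖riemannZeta (cl t)‖ ^ 2 * ‖A t‖ ^ 2))
      (Set.Ioi 0) := by
    have := ipow (pz.mul pA) k hδ 2
    refine this.congr (Eventually.of_forall fun t => ?_)
    simp only [norm_mul, mul_pow]
  rw [e]
  refine setIntegral_mono_on i3 ((i1.const_mul _).add (i2.const_mul _))
    measurableSet_Ioi fun t ht => ?_
  have hn := om_nonneg k hδ (le_of_lt ht)
  have hy := young3 (x := ‖riemannZeta (cl t)‖) (y := ‖A t‖) (norm_nonneg _) hν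
  calc om k δ t * (‖riemannZeta (cl t)‖ ^ 2 * ‖A t‖ ^ 2)
      ≤ om k δ t * ((2 * ν⁻¹ * ‖riemannZeta (cl t)‖ ^ 3 + ν ^ 2 * ‖A t‖ ^ 6) / 3) :=
        mul_le_mul_of_nonneg_left hy hn
    _ = _ := by ring

lemma main_le {k : ℕ} {δ : ℝ} (hδ : 0 < δ) {A : ℝ → ℂ} (S : Finset (ℕ × ℕ)) (c : ℕ × ℕ → ℝ)
    (h : ∀ t, ‖Cf S c t‖ = ‖A t‖ ^ 2) :
    ‖∫ t in Set.Ioi (0 : ℝ), (om k δ t : ℂ) * (riemannZeta (cl t) ^ 2 * Xf (cl t)) *
      Af 1 (fun _ => 1) t * Cf S c t‖ ≤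
    ∫ t in Set.Ioi (0 : ℝ), om k δ t * (‖riemannZeta (cl t)‖ ^ 2 * ‖A t‖ ^ 2) := by
  refine (norm_integral_le_integral_norm _).trans (le_of_eq ?_)
  refine setIntegral_congr_fun measurableSet_Ioi fun t ht => ?_
  have h1 : ‖Af 1 (fun _ => 1) t‖ = 1 := by
    unfold Af
    rw [Icc_self, sum_singleton]
    unfold ef
    simp
  simp only [norm_mul, norm_pow, Complex.norm_real, Real.norm_of_nonneg (om_nonneg k hδ (le_of_lt ht)),
    Pool.Agent.H768R2.SM_T0c.Xf_line, h1, h]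
  ring

/-- crude bound for the coefficients -/
lemma c3_le {W : ℝ → ℝ} {θ : ℝ} (hW : W1 W θ) {T : ℝ} (hT : 1 < T) {N : ℕ} {b : ℕ × ℕ}
    (hb : b ∈ S3 N) : c3 (aW (1 / 2) W T) N b ^ 2 ≤ (N : ℝ) ^ 2 := by
  have hL : 0 < Real.log T := Real.log_pos hT
  have h1 : ∀ n : ℕ, 0 ≤ aW (1 / 2) W T n ∧ aW (1 / 2) W T n ≤ 1 := by
    intro n
    refine ⟨aW_nonneg (by norm_num) hW T n, ?_⟩
    rw [aW_apply]
    have h2 : dv (1 / 2) n ≤ 1 := Pool.Agent.W184.dv_le_one (by norm_num) (by norm_num) n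
    have h3 := hW.le1 (Real.log n / Real.log T) (div_nonneg (Real.log_natCast_nonneg _) hL.le)
    exact mul_le_one₀ h2 (hW.nn _) h3
  obtain ⟨hh, -, hl, -, -⟩ := S3_prop hb
  have h0 : (1 : ℝ) ≤ b.1 := by exact_mod_cast hh
  have l0 : (1 : ℝ) ≤ b.2 := by exact_mod_cast hl
  have hs : 1 ≤ Real.sqrt ((b.1 : ℝ) * b.2) := by
    rw [Real.one_le_sqrt]
    exact one_le_mul_of_one_le_of_one_le h0 l0
  have h4 : 0 ≤ ∑ g ∈ Icc 1 N, aW (1 / 2) W T (g * b.1) * aW (1 / 2) W T (g * b.2) / g :=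
    sum_nonneg fun g _ => div_nonneg (mul_nonneg (h1 _).1 (h1 _).1) (Nat.cast_nonneg _)
  have h5 : ∑ g ∈ Icc 1 N, aW (1 / 2) W T (g * b.1) * aW (1 / 2) W T (g * b.2) / g ≤ N := by
    refine (sum_le_card_nsmul _ _ 1 fun g hg => ?_).trans ?_
    · rw [mem_Icc] at hg
      have g1 : (1 : ℝ) ≤ g := by exact_mod_cast hg.1
      rw [div_le_one (by linarith)]
      exact (mul_le_one₀ (h1 _).2 (h1 _).1 (h1 _).2).trans g1
    · rw [nsmul_eq_mul, Nat.card_Icc, Nat.add_sub_cancel, mul_one]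
  unfold c3
  apply pow_le_pow_left₀ (div_nonneg h4 (Real.sqrt_nonneg _))
  exact (div_le_self h4 hs).trans h5

theorem func3 (c1 κ ν : ℝ) (hν : 0 < ν)
    (hc : c1 < aF (3 / 2) * I3 (Wq (3333 / 10000)))
    (hκ : aF (3 / 2) * (∫ u : ℝ, gd (3 / 4) u * Wq (3333 / 10000) u ^ 2) ^ 3 < κ) :
    ∀ᶠ T : ℝ in atTop, ∀ k : ℕ, kr' T k →
      3 / 2 * ν * (c1 - ν ^ 2 * κ / 3) * Real.log T ^ (9 / 4 : ℝ) ≤
      ∫ t in Set.Ioi (0 : ℝ), om k (k / T) t * ‖riemannZeta (cl t)‖ ^ 3 := by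
  obtain ⟨c', hc1', hc'⟩ := exists_between hc
  have hW := Wq_W1 (θ := 3333 / 10000) (by norm_num)
  have hcross := cross3_lower hW (by norm_num) c' hc'
  have hA := AmW (1 / 2) (by norm_num) 3 (by norm_num) (θ := 3333 / 10000) (by norm_num) hW
    (by norm_num) κ (by
      have e1 : ((3 : ℕ) : ℝ) * (1 / 2) = 3 / 2 := by norm_num
      have e2 : (3 / 2 : ℝ) * (1 / 2) = 3 / 4 := by norm_num
      rw [e1, e2]
      exact hκ)
  have e94 : (((3 : ℕ) : ℝ) * (1 / 2)) ^ 2 = 9 / 4 := by norm_num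
  rw [e94] at hA
  have htw := twr (1 / 4) (by norm_num) (by norm_num)
  have hcc : 0 < c' - c1 := by linarith
  have l2 := log_small (3 / 2 * ν * (c1 - ν ^ 2 * κ / 3)) (9 / 4) (1 / 8) (by norm_num)
  have l3 := log_small κ (9 / 4) (1 / 8) (by norm_num)
  have l4 : ∀ᶠ T : ℝ in atTop, 2 ≤ (c' - c1) * Real.log T := by
    have : Tendsto (fun T : ℝ => (c' - c1) * Real.log T) atTop atTop :=
      Real.tendsto_log_atTop.const_mul_atTop hcc
    exact this.eventually_ge_atTop 2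
  filter_upwards [hcross, hA, htw, l2, l3, l4, eventually_gt_atTop (Real.exp 1),
    eventually_gt_atTop 1000] with T hcross hA htw l2 l3 l4 hTe hT1000 k hk
  have hT : 1 < T := by linarith
  have hT0 : 0 < T := by linarith
  obtain ⟨hk1, hδ⟩ := kr_pos hTe (show kr T k from hk)
  have hL1 : 1 < Real.log T := by
    rw [Real.lt_log_iff_exp_lt hT0]; exact hTe
  have hL0 : 0 < Real.log T := by linarith
  set H := ∫ t in Set.Ioi (0 : ℝ), om k (k / T) t * ‖riemannZeta (cl t)‖ ^ 3 with hH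
  by_cases hbig : T ^ (1 / 8 : ℝ) ≤ H
  · exact l2.trans hbig
  push Not at hbig
  set N := ⌊T ^ (3333 / 10000 : ℝ)⌋₊ with hN
  set p := aW (1 / 2) (Wq (3333 / 10000)) T with hp
  set S := S3 N with hS
  set c := c3 p N with hcdef
  have hNT : (N : ℝ) ≤ T ^ (3333 / 10000 : ℝ) := Nat.floor_le (by positivity)
  have hN1 : 1 ≤ N := by
    rw [hN, Nat.one_le_floor_iff]
    exact Real.one_le_rpow hT.le (by norm_num)
  have hSA : ∀ b ∈ S, AdH (1 / 4) T 1 b := by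
    intro b hb
    obtain ⟨h1, h2, h3, h4, h5⟩ := S3_prop hb
    refine ⟨h1, h3, h5, ?_⟩
    have g1 : (b.1 : ℝ) ≤ N := by exact_mod_cast h2
    have g2 : (b.2 : ℝ) ≤ N := by exact_mod_cast h4
    calc (b.1 : ℝ) * b.2 * (1 : ℕ) = b.1 * b.2 := by rw [Nat.cast_one, mul_one]
      _ ≤ T ^ (3333 / 10000 : ℝ) * T ^ (3333 / 10000 : ℝ) := by
          apply mul_le_mul (g1.trans hNT) (g2.trans hNT) (by positivity) (by positivity)
      _ = T ^ (6666 / 10000 : ℝ) := by rw [← Real.rpow_add hT0]; norm_num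
      _ ≤ T ^ (1 - 1 / 4 : ℝ) := Real.rpow_le_rpow_of_exponent_le hT.le (by norm_num)
  have hMU : ∑ n ∈ Icc 1 1, |(fun _ : ℕ => (1 : ℝ)) n / Real.sqrt n| ≤ (1 : ℝ) := by
    rw [Icc_self, sum_singleton]; norm_num
  have htw' := htw k hk 1 le_rfl (fun _ => 1) S hSA c 1 hMU hT.le
  have hcr := hcross k hk
  have hAk := hA k hk
  rw [show 2 * 3 = 6 by norm_num] at hAk
  set Q := ∑ b ∈ S, c b ^ 2 with hQ
  have hQ0 : 0 ≤ Q := sum_nonneg fun _ _ => sq_nonneg _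
  have hsq : ∀ t, Cf S c t = ((‖Af N p t‖ ^ 2 : ℝ) : ℂ) := by
    intro t
    refine Af_sq N p (fun n hn => ?_) t
    have hn' : T ^ (3333 / 10000 : ℝ) < (n : ℝ) := by
      rwa [hN, Nat.floor_lt (by positivity)] at hn
    have hn0 : (0 : ℝ) < n := lt_trans (by positivity) hn'
    rw [hp, aW_apply, hW.z _ _, mul_zero]
    rw [le_div_iff₀ hL0, ← Real.log_rpow hT0]
    exact Real.log_le_log (by positivity) hn'.le
  have hsq' : ∀ t, ‖Cf S c t‖ = ‖Af N p t‖ ^ 2 := by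
    intro t
    rw [hsq t, Complex.norm_real, Real.norm_of_nonneg (by positivity)]
  set W := ∫ t in Set.Ioi (0 : ℝ), (om k (k / T) t : ℂ) * (riemannZeta (cl t) ^ 2 * Xf (cl t)) *
        Af 1 (fun _ => 1) t * Cf S c t with hWd
  set K := ∫ t in Set.Ioi (0 : ℝ), om k (k / T) t * ‖Af N p t‖ ^ 6 with hK
  set R := Real.log T ^ (9 / 4 : ℝ) with hR
  set E := ∫ t in Set.Ioi (0 : ℝ), om k (k / T) t * (‖riemannZeta (cl t)‖ ^ 2 * ‖Af N p t‖ ^ 2)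
    with hE
  have hWE : ‖W‖ ≤ E := main_le hδ S c hsq'
  have hE1 : E ≤ (2 * ν⁻¹ * H + ν ^ 2 * K) / 3 := hold3 hδ (PG_Af N p) hν
  have hE2 : E ≤ (2 * 1⁻¹ * H + 1 ^ 2 * K) / 3 := hold3 hδ (PG_Af N p) one_pos
  have hEC : ∫ t in Set.Ioi (0 : ℝ), om k (k / T) t * (‖riemannZeta (cl t)‖ ^ 2 * ‖Cf S c t‖) = E := by
    simp only [hsq', hE]
  rw [hEC] at htw'
  have hR1 : Real.log T ≤ R := by
    conv_lhs => rw [← Real.rpow_one (Real.log T)]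
    exact Real.rpow_le_rpow_of_exponent_le hL1.le (by norm_num)
  have hR0 : 0 < R := by positivity
  have hH0 : 0 ≤ H := setIntegral_nonneg measurableSet_Ioi fun t ht =>
    mul_nonneg (om_nonneg k hδ (le_of_lt ht)) (by positivity)
  have hK0 : 0 ≤ K := setIntegral_nonneg measurableSet_Ioi fun t ht =>
    mul_nonneg (om_nonneg k hδ (le_of_lt ht)) (by positivity)
  have hK1 : K ≤ T ^ (1 / 8 : ℝ) := hAk.trans l3
  -- the error
  have hQ1 : Q ≤ T ^ (2 : ℝ) := by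
    have h1 : Q ≤ (N : ℝ) ^ 2 * (N : ℝ) ^ 2 := by
      refine (sum_le_card_nsmul _ _ _ fun b hb => c3_le hW hT hb).trans ?_
      rw [nsmul_eq_mul]
      refine mul_le_mul_of_nonneg_right ?_ (by positivity)
      have : S.card ≤ N * N := by
        refine (card_filter_le _ _).trans (le_of_eq ?_)
        rw [card_product, Nat.card_Icc, Nat.add_sub_cancel]
      calc (S.card : ℝ) ≤ ((N * N : ℕ) : ℝ) := by exact_mod_cast this
        _ = (N : ℝ) ^ 2 := by push_cast; ring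
    refine h1.trans ?_
    calc (N : ℝ) ^ 2 * (N : ℝ) ^ 2 = (N : ℝ) ^ 4 := by ring
      _ ≤ (T ^ (3333 / 10000 : ℝ)) ^ 4 := pow_le_pow_left₀ (Nat.cast_nonneg _) hNT 4
      _ = T ^ (13332 / 10000 : ℝ) := by
          rw [← Real.rpow_natCast, ← Real.rpow_mul hT0.le]; norm_num
      _ ≤ T ^ (2 : ℝ) := Real.rpow_le_rpow_of_exponent_le hT.le (by norm_num)
  have herr : 1 * (T ^ (-(3 / 4) : ℝ) * E) + T ^ (-3 : ℝ) * (1 + Q) ≤ 2 := by
    have h1 : T ^ (-(3 / 4) : ℝ) * E ≤ 1 := by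
      have h2 : E ≤ T ^ (3 / 4 : ℝ) := by
        have h3 : E ≤ T ^ (1 / 8 : ℝ) := by
          rw [inv_one, one_pow, mul_one, one_mul] at hE2
          linarith
        exact h3.trans (Real.rpow_le_rpow_of_exponent_le hT.le (by norm_num))
      calc T ^ (-(3 / 4) : ℝ) * E ≤ T ^ (-(3 / 4) : ℝ) * T ^ (3 / 4 : ℝ) := by gcongr
        _ = 1 := by rw [← Real.rpow_add hT0]; norm_num
    have h2 : T ^ (-3 : ℝ) * (1 + Q) ≤ 1 := by
      have h3 : 1 + Q ≤ T ^ (3 : ℝ) := by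
        have h4 : T ^ (3 : ℝ) = T ^ (2 : ℝ) * T := by
          rw [← Real.rpow_add_one hT0.ne']; norm_num
        have h5 : 1 ≤ T ^ (2 : ℝ) := Real.one_le_rpow hT.le (by norm_num)
        have h6 : T ^ (2 : ℝ) * 2 ≤ T ^ (2 : ℝ) * T :=
          mul_le_mul_of_nonneg_left (by linarith) (by positivity)
        rw [h4]
        linarith
      calc T ^ (-3 : ℝ) * (1 + Q) ≤ T ^ (-3 : ℝ) * T ^ (3 : ℝ) := by gcongr
        _ = 1 := by rw [← Real.rpow_add hT0]; norm_num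
    linarith
  have hWlow : c1 * R ≤ ‖W‖ := by
    have h1 : ‖((Ms k (Yf k T) 1 (fun _ => 1) S c : ℝ) : ℂ)‖ ≤ ‖W‖ + 2 := by
      have h2 := htw'.trans herr
      calc ‖((Ms k (Yf k T) 1 (fun _ => 1) S c : ℝ) : ℂ)‖ =
          ‖W - (W - ((Ms k (Yf k T) 1 (fun _ => 1) S c : ℝ) : ℂ))‖ := by
            congr 1; ring
        _ ≤ ‖W‖ + ‖W - ((Ms k (Yf k T) 1 (fun _ => 1) S c : ℝ) : ℂ)‖ := norm_sub_le _ _
        _ ≤ ‖W‖ + 2 := by linarith
    rw [Complex.norm_real] at h1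
    have h3 := le_trans (Real.le_norm_self _) h1
    have h4 : c' * R ≤ ‖W‖ + 2 := hcr.trans h3
    have h5 : 2 ≤ (c' - c1) * R := l4.trans (mul_le_mul_of_nonneg_left hR1 hcc.le)
    linarith
  have h10 : c1 * R ≤ (2 * ν⁻¹ * H + ν ^ 2 * (κ * R)) / 3 := by
    have : ν ^ 2 * K ≤ ν ^ 2 * (κ * R) := mul_le_mul_of_nonneg_left hAk (by positivity)
    linarith
  have h11 : 3 / 2 * ν * ((2 * ν⁻¹ * H + ν ^ 2 * (κ * R)) / 3) =
      H + 3 / 2 * ν * (ν ^ 2 * κ / 3) * R := by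
    field_simp
  have h12 := mul_le_mul_of_nonneg_left h10 (show 0 ≤ 3 / 2 * ν by positivity)
  rw [h11] at h12
  calc 3 / 2 * ν * (c1 - ν ^ 2 * κ / 3) * R =
      3 / 2 * ν * (c1 * R) - 3 / 2 * ν * (ν ^ 2 * κ / 3) * R := by ring
    _ ≤ H := by linarith

end
end Pool.Agent.Y756.T
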