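import Pool.Agent.Y756.K.Num3
import Pool.Agent.Y756.T.IntC

set_option autoImplicit false

/-! The weight for `k = 3` and its integrals. -/

namespace Pool.Agent.Y756.T

open Finset Filter Topology MeasureTheory Pool.Agent.H306R2
open Pool.Agent.TH535 (posI GdI GdI_nonneg int_able)
open scoped ENNReal

noncomputable section

/-- the weight -/
def Wq (θ u : ℝ) : ℝ := (max (θ - u) 0) ^ (1 / 4 : ℝ) / θ ^ (1 / 4 : ℝ)

lemma Wq_W1 {θ : ℝ} (hθ : 0 < θ) : W1 (Wq θ) θ where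
  cont := by
    unfold Wq
    exact (Continuous.rpow_const (by fun_prop) (fun _ => Or.inr (by norm_num))).div_const _
  nn u := by unfold Wq; positivity
  le1 u hu := by
    unfold Wq
    rw [div_le_one (by positivity)]
    exact Real.rpow_le_rpow (le_max_right _ _) (max_le (by linarith) hθ.le) (by norm_num)
  z u hu := by
    unfold Wq
    rw [max_eq_right (by linarith), Real.zero_rpow (by norm_num), zero_div]

/-- the norm integral -/
lemma V_eq {θ : ℝ} (hθ : 0 < θ) : ∫ u : ℝ, gd (3 / 4) u * Wq θ u ^ 2 =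
    θ ^ (3 / 4 : ℝ) * Real.Gamma (3 / 2) / Real.Gamma (9 / 4) := by
  have h := (beta_int (a := 3 / 4) (b := 1 / 2) (by norm_num) (by norm_num) hθ).2
  have e : (fun u => gd (3 / 4) u * Wq θ u ^ 2) =
      fun u => (θ ^ (1 / 2 : ℝ))⁻¹ * (gd (3 / 4) u * (max (θ - u) 0) ^ (1 / 2 : ℝ)) := by
    funext u
    unfold Wq
    have h1 : (0 : ℝ) ≤ max (θ - u) 0 := le_max_right _ _
    have e1 : ((max (θ - u) 0) ^ (1 / 4 : ℝ)) ^ 2 = (max (θ - u) 0) ^ (1 / 2 : ℝ) := by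
      rw [← Real.rpow_natCast, ← Real.rpow_mul h1]; norm_num
    have e2 : (θ ^ (1 / 4 : ℝ)) ^ 2 = θ ^ (1 / 2 : ℝ) := by
      rw [← Real.rpow_natCast, ← Real.rpow_mul hθ.le]; norm_num
    rw [div_pow, e1, e2]
    ring
  rw [e, integral_const_mul, h]
  rw [show (3 / 4 + 1 / 2 : ℝ) = 1 / 2 + 3 / 4 by norm_num, Real.rpow_add hθ,
    show (1 / 2 + 1 : ℝ) = 3 / 2 by norm_num, show (1 / 2 + 3 / 4 + 1 : ℝ) = 9 / 4 by norm_num]
  have h0 : θ ^ (1 / 2 : ℝ) ≠ 0 := (Real.rpow_pos_of_pos hθ _).ne'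
  field_simp

/-- one-dimensional moments of the weight -/
lemma M_int {r : ℝ} (hr : 0 < r) (α β : ℝ) :
    Integrable (fun x => gd (1 / 2) x * (max (r - x) 0) ^ (1 / 4 : ℝ) * (α - β * x)) ∧
    ∫ x, gd (1 / 2) x * (max (r - x) 0) ^ (1 / 4 : ℝ) * (α - β * x) =
      r ^ (3 / 4 : ℝ) * (Real.Gamma (5 / 4) / Real.Gamma (7 / 4)) * (α - β * (2 / 7 * r)) := by
  obtain ⟨i0, v0⟩ := beta_int (a := 1 / 2) (b := 1 / 4) (by norm_num) (by norm_num) hr
  obtain ⟨i1, v1⟩ := beta_int (a := 3 / 2) (b := 1 / 4) (by norm_num) (by norm_num) hr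
  have e : (fun x => gd (1 / 2) x * (max (r - x) 0) ^ (1 / 4 : ℝ) * (α - β * x)) =
      fun x => α * (gd (1 / 2) x * (max (r - x) 0) ^ (1 / 4 : ℝ)) -
        (β * (1 / 2)) * (gd (3 / 2) x * (max (r - x) 0) ^ (1 / 4 : ℝ)) := by
    funext x
    have h := id_gd (m := 1 / 2) (by norm_num) x
    rw [show (1 / 2 + 1 : ℝ) = 3 / 2 by norm_num] at h
    calc gd (1 / 2) x * (max (r - x) 0) ^ (1 / 4 : ℝ) * (α - β * x) =
          α * (gd (1 / 2) x * (max (r - x) 0) ^ (1 / 4 : ℝ)) -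
            β * (x * gd (1 / 2) x) * (max (r - x) 0) ^ (1 / 4 : ℝ) := by ring
      _ = _ := by rw [h]; ring
  rw [e]
  refine ⟨(i0.const_mul _).sub (i1.const_mul _), ?_⟩
  rw [integral_sub (i0.const_mul _) (i1.const_mul _), integral_const_mul, integral_const_mul, v0, v1]
  rw [show (1 / 2 + 1 / 4 : ℝ) = 3 / 4 by norm_num, show (3 / 2 + 1 / 4 : ℝ) = 3 / 4 + 1 by norm_num,
    Real.rpow_add_one hr.ne', show (1 / 4 + 1 : ℝ) = 5 / 4 by norm_num,
    show (3 / 4 + 1 : ℝ) = 7 / 4 by norm_num, Real.Gamma_add_one (s := 7 / 4) (by norm_num)]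
  have := Real.Gamma_pos_of_pos (show (0 : ℝ) < 7 / 4 by norm_num)
  field_simp
  ring

lemma GdI3 (x y g : ℝ) : GdI (m3 (1 / 2)) ![x, y, g] =
    gd (1 / 2) x * gd (1 / 2) y * gd (1 / 4) g := by
  unfold GdI m3
  rw [Fin.prod_univ_three]
  simp only [Matrix.cons_val_zero, Matrix.cons_val_one, Matrix.cons_val]
  rw [show ((1 / 2 : ℝ) ^ 2) = 1 / 4 by norm_num]

/-- the integrand -/
def GG3 (θ x y g : ℝ) : ℝ := GdI (m3 (1 / 2)) ![x, y, g] * q31 (Wq θ) ![x, y, g]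

lemma GG3_eq {θ : ℝ} (hθ : 0 < θ) (x y g : ℝ) : GG3 θ x y g =
    (θ ^ (1 / 2 : ℝ))⁻¹ * gd (1 / 4) g *
      (gd (1 / 2) x * (max (θ - g - x) 0) ^ (1 / 4 : ℝ)) *
      (gd (1 / 2) y * (max (θ - g - y) 0) ^ (1 / 4 : ℝ) * ((1 - x) - 1 * y)) := by
  unfold GG3
  rw [GdI3]
  unfold q31 Wq
  simp only [Matrix.cons_val_zero, Matrix.cons_val_one, Matrix.cons_val]
  have e1 : θ - (x + g) = θ - g - x := by ring
  have e2 : θ - (y + g) = θ - g - y := by ring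
  rw [e1, e2]
  have e3 : θ ^ (1 / 4 : ℝ) * θ ^ (1 / 4 : ℝ) = θ ^ (1 / 2 : ℝ) := by
    rw [← Real.rpow_add hθ]; norm_num
  have h0 : 0 < θ ^ (1 / 4 : ℝ) := by positivity
  rw [← e3]
  field_simp

lemma GG3_nonneg {θ : ℝ} (hθ : 0 < θ) (hθ2 : θ ≤ 1 / 2) (x y g : ℝ) : 0 ≤ GG3 θ x y g := by
  rw [GG3_eq hθ]
  have h0 : 0 < θ ^ (1 / 2 : ℝ) := by positivity
  have hg := gd_nonneg (m := 1 / 4) (by norm_num) g
  have hx := gd_nonneg (m := 1 / 2) (by norm_num) x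
  have hy := gd_nonneg (m := 1 / 2) (by norm_num) y
  by_cases g0 : 0 < g
  · by_cases cx : θ - g - x ≤ 0
    · rw [max_eq_right cx, Real.zero_rpow (by norm_num)]
      simp
    · by_cases cy : θ - g - y ≤ 0
      · rw [max_eq_right cy, Real.zero_rpow (by norm_num)]
        simp
      · push Not at cx cy
        have : 0 ≤ (1 - x) - 1 * y := by linarith
        positivity
  · have : gd (1 / 4) g = 0 := by unfold gd; rw [if_neg g0]
    rw [this]; simp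

/-- the integral over the first two variables -/
lemma lev3 {θ : ℝ} (hθ : 0 < θ) (hθ2 : θ ≤ 1 / 2) (g : ℝ) :
    ENNReal.ofReal ((θ ^ (1 / 2 : ℝ))⁻¹ * (Real.Gamma (5 / 4) / Real.Gamma (7 / 4)) ^ 2 *
      (gd (1 / 4) g * (max (θ - g) 0) ^ (3 / 2 : ℝ) -
        4 / 7 * (gd (1 / 4) g * (max (θ - g) 0) ^ (5 / 2 : ℝ)))) ≤
    ∫⁻ x, ∫⁻ y, ENNReal.ofReal (GG3 θ x y g) := by
  by_cases g0 : 0 < g
  swap
  · have : gd (1 / 4) g = 0 := by unfold gd; rw [if_neg g0]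
    rw [this]; simp
  by_cases g1 : g < θ
  swap
  · rw [max_eq_right (by linarith), Real.zero_rpow (by norm_num), Real.zero_rpow (by norm_num)]
    simp
  have hr : 0 < θ - g := by linarith
  set r := θ - g with hrd
  set K := Real.Gamma (5 / 4) / Real.Gamma (7 / 4) with hK
  have h0 : 0 < θ ^ (1 / 2 : ℝ) := by positivity
  have hg := gd_nonneg (m := 1 / 4) (by norm_num) g
  have hK0 : 0 < K := div_pos (Real.Gamma_pos_of_pos (by norm_num)) (Real.Gamma_pos_of_pos (by norm_num))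
  -- the inner integral
  have hin : ∀ x, ∫⁻ y, ENNReal.ofReal (GG3 θ x y g) =
      ENNReal.ofReal (((θ ^ (1 / 2 : ℝ))⁻¹ * gd (1 / 4) g * (r ^ (3 / 4 : ℝ) * K)) *
        (gd (1 / 2) x * (max (r - x) 0) ^ (1 / 4 : ℝ) * ((1 - 2 / 7 * r) - 1 * x))) := by
    intro x
    obtain ⟨hi, hv⟩ := M_int hr (1 - x) 1
    have hI := ofReal_integral_eq_lintegral_ofReal
      (hi.const_mul ((θ ^ (1 / 2 : ℝ))⁻¹ * gd (1 / 4) g *
        (gd (1 / 2) x * (max (r - x) 0) ^ (1 / 4 : ℝ))))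
      (Eventually.of_forall fun y => by
        have := GG3_nonneg hθ hθ2 x y g
        rw [GG3_eq hθ] at this
        exact this)
    rw [integral_const_mul, hv] at hI
    have e : ∀ y, GG3 θ x y g = (θ ^ (1 / 2 : ℝ))⁻¹ * gd (1 / 4) g *
        (gd (1 / 2) x * (max (r - x) 0) ^ (1 / 4 : ℝ)) *
        (gd (1 / 2) y * (max (r - y) 0) ^ (1 / 4 : ℝ) * ((1 - x) - 1 * y)) := fun y => GG3_eq hθ x y g
    simp only [e]
    rw [← hI]
    congr 1
    ring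
  simp only [hin]
  obtain ⟨hi, hv⟩ := M_int hr (1 - 2 / 7 * r) 1
  have hI := ofReal_integral_eq_lintegral_ofReal
    (hi.const_mul ((θ ^ (1 / 2 : ℝ))⁻¹ * gd (1 / 4) g * (r ^ (3 / 4 : ℝ) * K)))
    (Eventually.of_forall fun x => by
      show 0 ≤ ((θ ^ (1 / 2 : ℝ))⁻¹ * gd (1 / 4) g * (r ^ (3 / 4 : ℝ) * K)) *
        (gd (1 / 2) x * (max (r - x) 0) ^ (1 / 4 : ℝ) * ((1 - 2 / 7 * r) - 1 * x))
      have hx := gd_nonneg (m := 1 / 2) (by norm_num) x
      by_cases cx : r - x ≤ 0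
      · rw [max_eq_right cx, Real.zero_rpow (by norm_num)]
        simp
      · push Not at cx
        have : 0 ≤ (1 - 2 / 7 * r) - 1 * x := by linarith
        positivity)
  rw [integral_const_mul, hv] at hI
  rw [← hI]
  refine ENNReal.ofReal_le_ofReal (le_of_eq ?_)
  rw [max_eq_left hr.le]
  have e1 : r ^ (3 / 2 : ℝ) = r ^ (3 / 4 : ℝ) * r ^ (3 / 4 : ℝ) := by
    rw [← Real.rpow_add hr]; norm_num
  have e2 : r ^ (5 / 2 : ℝ) = r ^ (3 / 4 : ℝ) * r ^ (3 / 4 : ℝ) * r := by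
    rw [← Real.rpow_add hr, ← Real.rpow_add_one hr.ne']; norm_num
  rw [e1, e2]
  ring

/-- the cross integral -/
lemma I3_low {θ : ℝ} (hθ : 0 < θ) (hθ2 : θ ≤ 1 / 2) :
    θ ^ (5 / 4 : ℝ) * (Real.Gamma (5 / 4) / Real.Gamma (7 / 4)) ^ 2 *
      (Real.Gamma (5 / 2) / Real.Gamma (11 / 4)) * (1 - 40 / 77 * θ) ≤ I3 (Wq θ) := by
  have hW := Wq_W1 hθ
  have hm : ∀ i, 0 < m3 (1 / 2) i := by
    intro i; fin_cases i
    · show (0 : ℝ) < 1 / 2; norm_num
    · show (0 : ℝ) < 1 / 2; norm_num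
    · show (0 : ℝ) < (1 / 2) ^ 2; norm_num
  have hnn : ∀ u : Fin 3 → ℝ, 0 ≤ GdI (m3 (1 / 2)) u * q31 (Wq θ) u := by
    intro u
    have h := GG3_nonneg hθ hθ2 (u 0) (u 1) (u 2)
    unfold GG3 at h
    have e : (![u 0, u 1, u 2] : Fin 3 → ℝ) = u := by
      funext i; fin_cases i <;> rfl
    rwa [e] at h
  have hint : Integrable (fun u : Fin 3 → ℝ => GdI (m3 (1 / 2)) u * q31 (Wq θ) u) := by
    refine int_able hm _ (q31_cont hW.cont) θ ?_ hθ.le
    rintro u hu ⟨i, hi⟩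
    have h0 := hu 0
    have h1 := hu 1
    have h2 := hu 2
    unfold q31
    fin_cases i
    · have : θ ≤ u 0 := hi
      rw [hW.z _ (by linarith)]; ring
    · have : θ ≤ u 1 := hi
      rw [hW.z (u 1 + u 2) (by linarith)]; ring
    · have : θ ≤ u 2 := hi
      rw [hW.z _ (by linarith)]; ring
  have h1 := ofReal_integral_eq_lintegral_ofReal hint (Eventually.of_forall hnn)
  change ENNReal.ofReal (I3 (Wq θ)) = _ at h1
  have hI0 : 0 ≤ I3 (Wq θ) := integral_nonneg hnn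
  have hmeas : Measurable (fun u : Fin 3 → ℝ => ENNReal.ofReal
      (GdI (m3 (1 / 2)) u * q31 (Wq θ) u)) :=
    ((GdI_meas _).mul (q31_cont hW.cont).measurable).ennreal_ofReal
  rw [fubS 2 _ hmeas] at h1
  have h2 : ∀ g : ℝ, ∫⁻ y : Fin 2 → ℝ, ENNReal.ofReal
      (GdI (m3 (1 / 2)) ((2 : Fin 3).insertNth g y) * q31 (Wq θ) ((2 : Fin 3).insertNth g y)) =
      ∫⁻ x, ∫⁻ y, ENNReal.ofReal (GG3 θ x y g) := by
    intro g
    rw [fub2 (fun y => ENNReal.ofReal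
      (GdI (m3 (1 / 2)) ((2 : Fin 3).insertNth g y) * q31 (Wq θ) ((2 : Fin 3).insertNth g y)))
      (hmeas.comp (ins_meas 2 g))]
    refine lintegral_congr fun x => lintegral_congr fun y => ?_
    unfold GG3
    have e : ((2 : Fin 3).insertNth g ![x, y] : Fin 3 → ℝ) = ![x, y, g] := by
      funext i; fin_cases i <;> rfl
    rw [e]
  rw [lintegral_congr h2] at h1
  rw [← ENNReal.ofReal_le_ofReal_iff hI0, h1]
  refine le_trans ?_ (lintegral_mono (lev3 hθ hθ2))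
  obtain ⟨i0, v0⟩ := beta_int (a := 1 / 4) (b := 3 / 2) (by norm_num) (by norm_num) hθ
  obtain ⟨i1, v1⟩ := beta_int (a := 1 / 4) (b := 5 / 2) (by norm_num) (by norm_num) hθ
  set K := Real.Gamma (5 / 4) / Real.Gamma (7 / 4) with hK
  have h0 : 0 < θ ^ (1 / 2 : ℝ) := by positivity
  have hi : Integrable (fun g => (θ ^ (1 / 2 : ℝ))⁻¹ * K ^ 2 *
      (gd (1 / 4) g * (max (θ - g) 0) ^ (3 / 2 : ℝ) -
        4 / 7 * (gd (1 / 4) g * (max (θ - g) 0) ^ (5 / 2 : ℝ)))) :=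
    (i0.sub (i1.const_mul _)).const_mul _
  have hI := ofReal_integral_eq_lintegral_ofReal hi (Eventually.of_forall fun g => by
    show 0 ≤ (θ ^ (1 / 2 : ℝ))⁻¹ * K ^ 2 *
      (gd (1 / 4) g * (max (θ - g) 0) ^ (3 / 2 : ℝ) -
        4 / 7 * (gd (1 / 4) g * (max (θ - g) 0) ^ (5 / 2 : ℝ)))
    have hg := gd_nonneg (m := 1 / 4) (by norm_num) g
    by_cases g0 : 0 < g
    · have hx : 0 ≤ max (θ - g) 0 := le_max_right _ _
      have hx1 : max (θ - g) 0 ≤ 1 := max_le (by linarith) (by norm_num)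
      have e : (max (θ - g) 0) ^ (5 / 2 : ℝ) ≤ (max (θ - g) 0) ^ (3 / 2 : ℝ) := by
        rcases hx.eq_or_lt with h | h
        · rw [← h, Real.zero_rpow (by norm_num), Real.zero_rpow (by norm_num)]
        · exact Real.rpow_le_rpow_of_exponent_ge h hx1 (by norm_num)
      have e2 : 0 ≤ (max (θ - g) 0) ^ (5 / 2 : ℝ) := by positivity
      refine mul_nonneg (by positivity) ?_
      have : gd (1 / 4) g * (max (θ - g) 0) ^ (5 / 2 : ℝ) ≤
          gd (1 / 4) g * (max (θ - g) 0) ^ (3 / 2 : ℝ) := mul_le_mul_of_nonneg_left e hg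
      have e3 : 0 ≤ gd (1 / 4) g * (max (θ - g) 0) ^ (5 / 2 : ℝ) := mul_nonneg hg e2
      linarith
    · have : gd (1 / 4) g = 0 := by unfold gd; rw [if_neg g0]
      rw [this]; simp)
  rw [integral_const_mul, integral_sub i0 (i1.const_mul _), integral_const_mul, v0, v1] at hI
  rw [← hI]
  refine ENNReal.ofReal_le_ofReal (le_of_eq ?_)
  rw [show (1 / 4 + 3 / 2 : ℝ) = 1 / 2 + 5 / 4 by norm_num,
    show (1 / 4 + 5 / 2 : ℝ) = 1 / 2 + 5 / 4 + 1 by norm_num,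
    Real.rpow_add_one hθ.ne', Real.rpow_add hθ,
    show (3 / 2 + 1 : ℝ) = 5 / 2 by norm_num,
    show (1 / 2 + 5 / 4 + 1 : ℝ) = 11 / 4 by norm_num,
    Real.Gamma_add_one (s := 5 / 2) (by norm_num), Real.Gamma_add_one (s := 11 / 4) (by norm_num)]
  have := Real.Gamma_pos_of_pos (show (0 : ℝ) < 11 / 4 by norm_num)
  field_simp
  ring

end
end Pool.Agent.Y756.T
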