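import Pool.Agent.Y756.K.Int3
import Pool.Agent.Y756.S.Num7

set_option autoImplicit false

/-! Numerical evaluation in the case `k = 3`. -/

namespace Pool.Agent.Y756.T

open Finset Filter Topology MeasureTheory

noncomputable section

lemma fq_step (M : ℕ) (hM : 10 ≤ M) : ((M : ℝ) + 1 / 4) ^ 4 * ((M : ℝ) + 1 + 13 / 100) ^ 3 ≤
    ((M : ℝ) + 1) ^ 4 * ((M : ℝ) + 13 / 100) ^ 3 := by
  obtain ⟨t, rfl⟩ := Nat.exists_eq_add_of_le hM
  have ht : (0 : ℝ) ≤ t := Nat.cast_nonneg _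
  push_cast
  have e : ((10 : ℝ) + t + 1) ^ 4 * (10 + t + 13 / 100) ^ 3 -
      (10 + t + 1 / 4) ^ 4 * (10 + t + 1 + 13 / 100) ^ 3 =
      (32515108459/51200000) + (27528845569/64000000) * t + (338355687/3200000) * t ^ 2 + (49135189/4000000) * t ^ 3 + (13753/20000) * t ^ 4 + (3/200) * t ^ 5 := by
    ring
  have h : (0 : ℝ) ≤ (32515108459/51200000) + (27528845569/64000000) * t + (338355687/3200000) * t ^ 2 + (49135189/4000000) * t ^ 3 + (13753/20000) * t ^ 4 +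
      (3/200) * t ^ 5 := by positivity
  linarith

/-- a sharper lower bound for the gamma function -/
lemma Gamma_ql (N : ℕ) (hN : 10 ≤ N) :
    ((N.factorial : ℝ)) ^ 4 ≤ Real.Gamma (N + 1 / 4) ^ 4 * ((N : ℝ) + 13 / 100) ^ 3 := by
  set f : ℕ → ℝ := fun M => Real.Gamma (M + 1 / 4) ^ 4 * ((M : ℝ) + 13 / 100) ^ 3 /
    ((M.factorial : ℝ)) ^ 4 with hf
  have hfac : ∀ M : ℕ, (0 : ℝ) < (M.factorial : ℝ) := fun M => by exact_mod_cast M.factorial_pos
  have hstep : ∀ M, 10 ≤ M → f (M + 1) ≤ f M := by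
    intro M hM
    have hG := Real.Gamma_pos_of_pos (show (0 : ℝ) < (M : ℝ) + 1 / 4 by positivity)
    have e : Real.Gamma (((M + 1 : ℕ) : ℝ) + 1 / 4) = ((M : ℝ) + 1 / 4) * Real.Gamma ((M : ℝ) + 1 / 4) := by
      rw [← Real.Gamma_add_one (by positivity)]
      congr 1
      push_cast; ring
    have h := fq_step M hM
    have hF := hfac M
    rw [hf]
    simp only
    rw [e, Nat.factorial_succ]
    push_cast
    rw [div_le_div_iff₀ (by positivity) (by positivity)]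
    set G := Real.Gamma ((M : ℝ) + 1 / 4)
    set F := (M.factorial : ℝ)
    calc (((M : ℝ) + 1 / 4) * G) ^ 4 * ((M : ℝ) + 1 + 13 / 100) ^ 3 * F ^ 4 =
        (((M : ℝ) + 1 / 4) ^ 4 * ((M : ℝ) + 1 + 13 / 100) ^ 3) * (G ^ 4 * F ^ 4) := by ring
      _ ≤ (((M : ℝ) + 1) ^ 4 * ((M : ℝ) + 13 / 100) ^ 3) * (G ^ 4 * F ^ 4) :=
          mul_le_mul_of_nonneg_right h (by positivity)
      _ = _ := by ring
  have hmono : ∀ n : ℕ, f (N + n) ≤ f N := by
    intro n
    induction n with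
    | zero => simp
    | succ n ih =>
      rw [← add_assoc]
      exact (hstep (N + n) (by omega)).trans ih
  have hlow : ∀ n : ℕ, (((N + n : ℕ) : ℝ) + 13 / 100) ^ 3 / (((N + n : ℕ) : ℝ) + 1 / 4) ^ 3 ≤ f N := by
    intro n
    refine le_trans ?_ (hmono n)
    have h := Gamma_quarter_low (N + n)
    have hF := hfac (N + n)
    rw [hf]
    simp only
    rw [div_le_div_iff₀ (by positivity) (by positivity)]
    calc (((N + n : ℕ) : ℝ) + 13 / 100) ^ 3 * ((N + n).factorial : ℝ) ^ 4 ≤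
        (((N + n : ℕ) : ℝ) + 13 / 100) ^ 3 *
          (Real.Gamma ((N + n : ℕ) + 1 / 4) ^ 4 * (((N + n : ℕ) : ℝ) + 1 / 4) ^ 3) :=
          mul_le_mul_of_nonneg_left h (by positivity)
      _ = _ := by ring
  have hlim : Tendsto (fun n : ℕ => (((N + n : ℕ) : ℝ) + 13 / 100) ^ 3 /
      (((N + n : ℕ) : ℝ) + 1 / 4) ^ 3) atTop (𝓝 1) := by
    have h1 : Tendsto (fun n : ℕ => ((N + n : ℕ) : ℝ)) atTop atTop :=
      tendsto_natCast_atTop_atTop.comp (tendsto_add_atTop_nat N |>.congr fun n => by rw [add_comm])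
    have h2 : Tendsto (fun x : ℝ => (x + 13 / 100) / (x + 1 / 4)) atTop (𝓝 1) := by
      have h3 : Tendsto (fun x : ℝ => 1 - (12 / 100) / (x + 1 / 4)) atTop (𝓝 (1 - 0)) := by
        refine tendsto_const_nhds.sub (Tendsto.div_atTop tendsto_const_nhds ?_)
        exact tendsto_atTop_add_const_right _ _ tendsto_id
      rw [sub_zero] at h3
      refine h3.congr' ?_
      filter_upwards [eventually_gt_atTop 0] with x hx
      field_simp
      ring
    have h4 := (h2.comp h1).pow 3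
    rw [one_pow] at h4
    refine h4.congr fun n => ?_
    simp only [Function.comp_apply, div_pow]
  have h1 : 1 ≤ f N := le_of_tendsto' hlim hlow
  have hF := hfac N
  rw [hf] at h1
  simp only at h1
  rwa [one_le_div (by positivity)] at h1

lemma Gamma54 : (67481 / 100000 : ℝ) ≤ Real.Gamma (5 / 4) ^ 4 := by
  have h1 := Gamma_ql 60 (by norm_num)
  have h2 := Gamma_shift (5 / 4) (by norm_num) 59
  rw [show (5 / 4 : ℝ) + (59 : ℕ) = ((60 : ℕ) : ℝ) + 1 / 4 by norm_num] at h2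
  rw [h2, fact60] at h1
  simp only [prod_range_succ, prod_range_zero] at h1
  have hG := Real.Gamma_pos_of_pos (show (0 : ℝ) < 5 / 4 by norm_num)
  set G := Real.Gamma (5 / 4) with hGd
  rw [mul_pow] at h1
  norm_num at h1
  by_contra hlt
  push Not at hlt
  have h3 : 0 ≤ G ^ 4 := by positivity
  linarith

/-- the reflection formula -/
lemma Gamma_refl : Real.Gamma (5 / 4) * Real.Gamma (7 / 4) = 3 / 16 * (Real.pi * Real.sqrt 2) := by
  have h := Real.Gamma_mul_Gamma_one_sub (1 / 4)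
  rw [show (1 - 1 / 4 : ℝ) = 3 / 4 by norm_num, show Real.pi * (1 / 4) = Real.pi / 4 by ring,
    Real.sin_pi_div_four] at h
  have e1 : Real.Gamma (5 / 4) = 1 / 4 * Real.Gamma (1 / 4) := by
    rw [show (5 / 4 : ℝ) = 1 / 4 + 1 by norm_num, Real.Gamma_add_one (by norm_num)]
  have e2 : Real.Gamma (7 / 4) = 3 / 4 * Real.Gamma (3 / 4) := by
    rw [show (7 / 4 : ℝ) = 3 / 4 + 1 by norm_num, Real.Gamma_add_one (by norm_num)]
  rw [e1, e2]
  have hs : Real.sqrt 2 * Real.sqrt 2 = 2 := Real.mul_self_sqrt (by norm_num)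
  have hs0 : 0 < Real.sqrt 2 := by positivity
  calc 1 / 4 * Real.Gamma (1 / 4) * (3 / 4 * Real.Gamma (3 / 4)) =
      3 / 16 * (Real.Gamma (1 / 4) * Real.Gamma (3 / 4)) := by ring
    _ = 3 / 16 * (Real.pi / (Real.sqrt 2 / 2)) := by rw [h]
    _ = 3 / 16 * (Real.pi * Real.sqrt 2) := by
        congr 1
        field_simp
        linarith

/-- choice of the parameters -/
theorem params3 : ∃ p w ν : ℝ, 0 < p ∧ 0 < ν ∧
    p < I3 (Wq (3333 / 10000)) ∧
    (∫ u : ℝ, Pool.Agent.H306R2.gd (3 / 4) u * Wq (3333 / 10000) u ^ 2) ^ 3 < w ∧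
    7 / 8 / Real.Gamma (13 / 4) < 3 / 2 * ν * (p - ν ^ 2 * w / 3) := by
  have hI := I3_low (θ := 3333 / 10000) (by norm_num) (by norm_num)
  have hV := V_eq (θ := 3333 / 10000) (by norm_num)
  rw [hV]
  have ha := Real.Gamma_pos_of_pos (show (0 : ℝ) < 5 / 4 by norm_num)
  have hb := Real.Gamma_pos_of_pos (show (0 : ℝ) < 7 / 4 by norm_num)
  have hh := Real.Gamma_pos_of_pos (show (0 : ℝ) < 3 / 2 by norm_num)
  have e94 : Real.Gamma (9 / 4) = 5 / 4 * Real.Gamma (5 / 4) := by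
    rw [show (9 / 4 : ℝ) = 5 / 4 + 1 by norm_num, Real.Gamma_add_one (by norm_num)]
  have e134 : Real.Gamma (13 / 4) = 45 / 16 * Real.Gamma (5 / 4) := by
    rw [show (13 / 4 : ℝ) = 9 / 4 + 1 by norm_num, Real.Gamma_add_one (by norm_num), e94]; ring
  have e52 : Real.Gamma (5 / 2) = 3 / 2 * Real.Gamma (3 / 2) := by
    rw [show (5 / 2 : ℝ) = 3 / 2 + 1 by norm_num, Real.Gamma_add_one (by norm_num)]
  have e114 : Real.Gamma (11 / 4) = 7 / 4 * Real.Gamma (7 / 4) := by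
    rw [show (11 / 4 : ℝ) = 7 / 4 + 1 by norm_num, Real.Gamma_add_one (by norm_num)]
  have hr := Gamma_refl
  have h54 := Gamma54
  rw [e52, e114] at hI
  rw [e94, e134]
  set a := Real.Gamma (5 / 4) with had
  set b := Real.Gamma (7 / 4) with hbd
  set h := Real.Gamma (3 / 2) with hhd
  set x := (3333 / 10000 : ℝ) ^ (5 / 4 : ℝ) with hx
  set y := (3333 / 10000 : ℝ) ^ (3 / 4 : ℝ) with hy
  have hx0 : 0 < x := by positivity
  have hy0 : 0 < y := by positivity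
  have hx4 : x ^ 4 = (3333 / 10000 : ℝ) ^ 5 := by
    rw [hx, ← Real.rpow_natCast, ← Real.rpow_mul (by norm_num), ← Real.rpow_natCast]; norm_num
  have hy4 : y ^ 4 = (3333 / 10000 : ℝ) ^ 3 := by
    rw [hy, ← Real.rpow_natCast, ← Real.rpow_mul (by norm_num), ← Real.rpow_natCast]; norm_num
  set I0 := x * (a / b) ^ 2 * (3 / 2 * h / (7 / 4 * b)) * (1 - 40 / 77 * (3333 / 10000)) with hI0
  have hI00 : 0 < I0 := by
    have : (0 : ℝ) < 1 - 40 / 77 * (3333 / 10000) := by norm_num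
    positivity
  set V0 := y * h / (5 / 4 * a) with hV0
  have hV00 : 0 < V0 := by positivity
  set p := I0 * (1 - 1 / 10 ^ 6) with hp
  set w := V0 ^ 3 * (1 + 1 / 10 ^ 6) with hw
  have hp0 : 0 < p := by
    have : (0 : ℝ) < 1 - 1 / 10 ^ 6 := by norm_num
    positivity
  have hw0 : 0 < w := by positivity
  set ν := Real.sqrt (p / w) with hν
  have hν0 : 0 < ν := Real.sqrt_pos.2 (by positivity)
  have hν2 : ν ^ 2 = p / w := Real.sq_sqrt (by positivity)
  refine ⟨p, w, ν, hp0, hν0, ?_, ?_, ?_⟩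
  · refine lt_of_lt_of_le ?_ hI
    show p < I0
    rw [hp]
    linarith
  · show V0 ^ 3 < w
    have : 0 < V0 ^ 3 := by positivity
    rw [hw]
    linarith
  · have e1 : 3 / 2 * ν * (p - ν ^ 2 * w / 3) = ν * p := by
      rw [hν2]
      field_simp
      ring
    rw [e1]
    refine lt_of_pow_lt_pow_left₀ 8 (by positivity) ?_
    have e2 : (ν * p) ^ 8 = (p ^ 3 / w) ^ 4 := by
      rw [mul_pow, show ν ^ 8 = (ν ^ 2) ^ 4 by ring, hν2]
      field_simp
    have hs2 : Real.sqrt 2 ^ 36 = 2 ^ 18 := by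
      rw [show Real.sqrt 2 ^ 36 = (Real.sqrt 2 ^ 2) ^ 18 by ring, Real.sq_sqrt (by norm_num)]
    have hb1 : b = 3 / 16 * (Real.pi * Real.sqrt 2) / a := by
      rw [eq_div_iff ha.ne', mul_comm]; exact hr
    have e3 : (p ^ 3 / w) ^ 4 = (x ^ 4) ^ 3 / (y ^ 4) ^ 3 * (15 / 14) ^ 12 *
        (1 - 40 / 77 * (3333 / 10000)) ^ 12 * (1 - 1 / 10 ^ 6) ^ 12 / (1 + 1 / 10 ^ 6) ^ 4 *
        (a ^ 36 / b ^ 36) := by
      rw [hp, hw, hI0, hV0]
      field_simp
      ring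
    have e4 : a ^ 36 / b ^ 36 = (a ^ 4) ^ 18 / ((3 / 16) ^ 36 * Real.pi ^ 36 * 2 ^ 18) := by
      rw [hb1, div_pow, mul_pow, mul_pow, hs2]
      field_simp
    have e5 : (7 / 8 / (45 / 16 * a)) ^ 8 = (14 / 45) ^ 8 / (a ^ 4) ^ 2 := by
      field_simp
      ring
    rw [e2, e3, e4, e5, hx4, hy4]
    set A := a ^ 4 with hA
    have hA0 : 0 < A := by positivity
    have hpi : Real.pi ≤ 3141593 / 1000000 := by
      have := Real.pi_lt_d6
      linarith
    have h1 : (14 / 45 : ℝ) ^ 8 / A ^ 2 ≤ (14 / 45) ^ 8 / (67481 / 100000 : ℝ) ^ 2 := by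
      gcongr
    have h2 : ((3333 / 10000 : ℝ) ^ 5) ^ 3 / ((3333 / 10000) ^ 3) ^ 3 * (15 / 14) ^ 12 *
        (1 - 40 / 77 * (3333 / 10000)) ^ 12 * (1 - 1 / 10 ^ 6) ^ 12 / (1 + 1 / 10 ^ 6) ^ 4 *
        ((67481 / 100000) ^ 18 / ((3 / 16) ^ 36 * (3141593 / 1000000) ^ 36 * 2 ^ 18)) ≤
        ((3333 / 10000 : ℝ) ^ 5) ^ 3 / ((3333 / 10000) ^ 3) ^ 3 * (15 / 14) ^ 12 *
        (1 - 40 / 77 * (3333 / 10000)) ^ 12 * (1 - 1 / 10 ^ 6) ^ 12 / (1 + 1 / 10 ^ 6) ^ 4 *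
        (A ^ 18 / ((3 / 16) ^ 36 * Real.pi ^ 36 * 2 ^ 18)) := by
      have q1 : (0 : ℝ) ≤ 1 - 40 / 77 * (3333 / 10000) := by norm_num
      have q2 : (0 : ℝ) ≤ 1 - 1 / 10 ^ 6 := by norm_num
      have := Real.pi_pos
      gcongr
    refine lt_of_le_of_lt h1 (lt_of_lt_of_le ?_ h2)
    norm_num

end
end Pool.Agent.Y756.T
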