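import Pool.Agent.Y756.K.Fin3
import Pool.Agent.Y756.K.NumP

set_option autoImplicit false

/-! The lower bound for the third moment. -/

namespace Pool.Agent.Y756.T

open Finset Filter Topology MeasureTheory
open Pool.Agent.H306R2 Pool.Agent.H306R2.SM
open Pool.Agent.H223.EM hiding mw

noncomputable section

theorem main3 : ∀ᶠ T : ℝ in atTop,
    7 / 8 / Real.Gamma (13 / 4) * aF (3 / 2) * T * Real.log T ^ (9 / 4 : ℝ) ≤
      ∫ t in (0 : ℝ)..T, ‖riemannZeta (cl t)‖ ^ 3 := by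
  obtain ⟨p, w, ν, hp, hν, h1, h3, h4⟩ := params3
  have hA := aF_pos (κ := 3 / 2) (by norm_num)
  set A := aF (3 / 2) with hAd
  have hG := Real.Gamma_pos_of_pos (show (0 : ℝ) < 13 / 4 by norm_num)
  have hf := func3 (A * p) (A * w) ν hν
    (mul_lt_mul_of_pos_left h1 hA) (mul_lt_mul_of_pos_left h3 hA)
  have e : 3 / 2 * ν * (A * p - ν ^ 2 * (A * w) / 3) =
      A * (3 / 2 * ν * (p - ν ^ 2 * w / 3)) := by ring
  rw [e] at hf
  set M := 3 / 2 * ν * (p - ν ^ 2 * w / 3) with hM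
  have hM0 : 0 < M := lt_trans (by positivity) h4
  have hpz := Pool.Agent.H284R2.EM.PG.zeta
  obtain ⟨hcz, Cz, Az, hCz, hz⟩ := hpz.pow 3
  refine window_real (fun t => ‖riemannZeta (cl t)‖ ^ 3) (hpz.1.norm.pow 3)
    (fun t => by positivity) ⟨Cz, Az, fun t ht => by
      have := hz t ht
      rwa [norm_pow] at this⟩ (A * M) (by positivity) (9 / 4) (by norm_num) ?_ _ ?_
  · filter_upwards [hf] with T hT k hk1 hk2
    exact hT k ⟨hk1, hk2⟩
  · calc 7 / 8 / Real.Gamma (13 / 4) * A < M * A := mul_lt_mul_of_pos_right h4 hA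
      _ = A * M := mul_comm _ _

end
end Pool.Agent.Y756.T
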