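import Pool.Agent.Y756.K.AmW

set_option autoImplicit false

/-! The twisted second moment with the square of a weighted Dirichlet polynomial. -/

namespace Pool.Agent.Y756.T

open Finset Filter Topology MeasureTheory Complex
open Pool.Agent.H306R2 Pool.Agent.H306R2.SM
open Pool.Agent.H223.EM hiding mw
open Pool.Agent.H133R2.EM11 (Af Cf PG_Af PG_Cf Af_norm Cf_norm z2_bound)
open Pool.Agent.TH535 (posI GdI kar)
open Pool.Agent.TH535.MA (mw LW)
open Pool.Agent.H989R2.EM3 (bk_bound)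

noncomputable section

/-- coprime pairs -/
def S3 (N : ℕ) : Finset (ℕ × ℕ) :=
  (Icc 1 N ×ˢ Icc 1 N).filter (fun b => Nat.Coprime b.1 b.2)

lemma S3_prop {N : ℕ} {b : ℕ × ℕ} (hb : b ∈ S3 N) :
    1 ≤ b.1 ∧ b.1 ≤ N ∧ 1 ≤ b.2 ∧ b.2 ≤ N ∧ Nat.Coprime b.1 b.2 := by
  unfold S3 at hb
  rw [mem_filter, mem_product, mem_Icc, mem_Icc] at hb
  exact ⟨hb.1.1.1, hb.1.1.2, hb.1.2.1, hb.1.2.2, hb.2⟩

/-- grouping by the greatest common divisor -/
lemma sum_gcd {M : Type*} [AddCommMonoid M] (N : ℕ) (F : ℕ → ℕ → M)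
    (h0 : ∀ m n, ¬ (m ≤ N ∧ n ≤ N) → F m n = 0) :
    ∑ x ∈ Icc 1 N ×ˢ Icc 1 N, F x.1 x.2 =
      ∑ y ∈ S3 N ×ˢ Icc 1 N, F (y.2 * y.1.1) (y.2 * y.1.2) := by
  classical
  rw [← sum_filter_of_ne (s := S3 N ×ˢ Icc 1 N)
    (p := fun y => y.2 * y.1.1 ≤ N ∧ y.2 * y.1.2 ≤ N) (fun y _ hy => by
      by_contra h
      exact hy (h0 _ _ h))]
  refine sum_nbij' (fun x => ((x.1 / Nat.gcd x.1 x.2, x.2 / Nat.gcd x.1 x.2), Nat.gcd x.1 x.2))
    (fun y => (y.2 * y.1.1, y.2 * y.1.2)) ?_ ?_ ?_ ?_ ?_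
  · rintro ⟨m, n⟩ hx
    rw [mem_product, mem_Icc, mem_Icc] at hx
    obtain ⟨⟨hm, hmN⟩, hn, hnN⟩ := hx
    simp only at hm hmN hn hnN ⊢
    have hg : 0 < Nat.gcd m n := Nat.gcd_pos_of_pos_left _ hm
    have e1 := Nat.mul_div_cancel' (Nat.gcd_dvd_left m n)
    have e2 := Nat.mul_div_cancel' (Nat.gcd_dvd_right m n)
    have p1 : 0 < m / Nat.gcd m n := Nat.div_pos (Nat.le_of_dvd hm (Nat.gcd_dvd_left m n)) hg
    have p2 : 0 < n / Nat.gcd m n := Nat.div_pos (Nat.le_of_dvd hn (Nat.gcd_dvd_right m n)) hg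
    have q1 : m / Nat.gcd m n ≤ m := Nat.div_le_self _ _
    have q2 : n / Nat.gcd m n ≤ n := Nat.div_le_self _ _
    have q3 : Nat.gcd m n ≤ m := Nat.le_of_dvd hm (Nat.gcd_dvd_left m n)
    rw [mem_filter, mem_product]
    unfold S3
    rw [mem_filter, mem_product]
    simp only [mem_Icc]
    rw [e1, e2]
    exact ⟨⟨⟨⟨⟨p1, by omega⟩, ⟨p2, by omega⟩⟩, Nat.coprime_div_gcd_div_gcd hg⟩, ⟨hg, by omega⟩⟩,
      hmN, hnN⟩
  · rintro ⟨⟨h, l⟩, g⟩ hy
    rw [mem_filter, mem_product, mem_Icc] at hy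
    obtain ⟨⟨hb, hg, -⟩, h1, h2⟩ := hy
    obtain ⟨hh, -, hl, -, -⟩ := S3_prop hb
    simp only at hh hl hg h1 h2 ⊢
    rw [mem_product, mem_Icc, mem_Icc]
    exact ⟨⟨Nat.mul_pos hg hh, h1⟩, ⟨Nat.mul_pos hg hl, h2⟩⟩
  · rintro ⟨m, n⟩ _
    simp only
    rw [Nat.mul_div_cancel' (Nat.gcd_dvd_left m n), Nat.mul_div_cancel' (Nat.gcd_dvd_right m n)]
  · rintro ⟨⟨h, l⟩, g⟩ hy
    rw [mem_filter, mem_product, mem_Icc] at hy
    obtain ⟨⟨hb, hg, -⟩, -⟩ := hy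
    obtain ⟨-, -, -, -, hc⟩ := S3_prop hb
    simp only at hc hg ⊢
    have e : Nat.gcd (g * h) (g * l) = g := by
      rw [Nat.gcd_mul_left, Nat.Coprime.gcd_eq_one hc, mul_one]
    rw [e, Nat.mul_div_cancel_left _ hg, Nat.mul_div_cancel_left _ hg]
  · rintro ⟨m, n⟩ _
    simp only
    rw [Nat.mul_div_cancel' (Nat.gcd_dvd_left m n), Nat.mul_div_cancel' (Nat.gcd_dvd_right m n)]

/-- the coefficients of the square -/
def c3 (p : ℕ → ℝ) (N : ℕ) (b : ℕ × ℕ) : ℝ :=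
  (∑ g ∈ Icc 1 N, p (g * b.1) * p (g * b.2) / g) / Real.sqrt ((b.1 : ℝ) * b.2)

lemma ef_mul (a b t : ℝ) : ef a t * ef b t = ef (a + b) t := by
  unfold ef
  rw [← Complex.exp_add]
  congr 1
  push_cast
  ring

lemma conj_ef' (a t : ℝ) : (starRingEnd ℂ) (ef a t) = ef (-a) t := by
  unfold ef
  rw [← Complex.exp_conj, map_mul, Complex.conj_ofReal, Complex.conj_I]
  congr 1
  push_cast
  ring

/-- the square of a Dirichlet polynomial -/
lemma Af_sq (N : ℕ) (p : ℕ → ℝ) (hp : ∀ n, N < n → p n = 0) (t : ℝ) :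
    Cf (S3 N) (c3 p N) t = ((‖Af N p t‖ ^ 2 : ℝ) : ℂ) := by
  have h1 : ((‖Af N p t‖ ^ 2 : ℝ) : ℂ) = (starRingEnd ℂ) (Af N p t) * Af N p t := by
    rw [← Complex.normSq_eq_norm_sq, mul_comm, Complex.mul_conj]
  rw [h1]
  set F : ℕ → ℕ → ℂ := fun m n => ((p m / Real.sqrt m : ℝ) : ℂ) * ((p n / Real.sqrt n : ℝ) : ℂ) *
    (ef (Real.log m) t * ef (-(Real.log n)) t) with hF
  have h2 : (starRingEnd ℂ) (Af N p t) * Af N p t = ∑ x ∈ Icc 1 N ×ˢ Icc 1 N, F x.1 x.2 := by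
    unfold Af
    rw [map_sum, sum_mul_sum, sum_product]
    refine sum_congr rfl fun m _ => sum_congr rfl fun n _ => ?_
    rw [map_mul, Complex.conj_ofReal, conj_ef', neg_neg, hF]
    ring
  rw [h2, sum_gcd N F (fun m n h => by
    rw [hF]
    simp only
    by_cases hm : m ≤ N
    · have hn : N < n := by
        by_contra hn
        exact h ⟨hm, not_lt.1 hn⟩
      rw [hp n hn]; simp
    · rw [hp m (not_le.1 hm)]; simp)]
  unfold Cf
  rw [sum_product]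
  refine sum_congr rfl fun b hb => ?_
  obtain ⟨hh, -, hl, -, -⟩ := S3_prop hb
  have h0 : (0 : ℝ) < b.1 := by exact_mod_cast hh
  have l0 : (0 : ℝ) < b.2 := by exact_mod_cast hl
  unfold c3
  push_cast
  rw [sum_div, sum_mul]
  refine sum_congr rfl fun g hg => ?_
  rw [mem_Icc] at hg
  have g0 : (0 : ℝ) < g := by exact_mod_cast hg.1
  rw [hF]
  simp only
  rw [ef_mul]
  have e1 : Real.log ((g * b.1 : ℕ) : ℝ) + -Real.log ((g * b.2 : ℕ) : ℝ) =
      Real.log ((b.1 : ℝ) / b.2) := by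
    rw [Nat.cast_mul, Nat.cast_mul, Real.log_mul g0.ne' h0.ne', Real.log_mul g0.ne' l0.ne',
      Real.log_div h0.ne' l0.ne']
    ring
  rw [e1]
  congr 1
  have e2 : Real.sqrt ((g * b.1 : ℕ) : ℝ) * Real.sqrt ((g * b.2 : ℕ) : ℝ) =
      g * Real.sqrt ((b.1 : ℝ) * b.2) := by
    rw [← Real.sqrt_mul (Nat.cast_nonneg _)]
    push_cast
    rw [show (g : ℝ) * b.1 * (g * b.2) = (g : ℝ) ^ 2 * (b.1 * b.2) by ring,
      Real.sqrt_mul (sq_nonneg _), Real.sqrt_sq g0.le]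
  have hs1 : (0 : ℝ) < Real.sqrt ((g * b.1 : ℕ) : ℝ) := Real.sqrt_pos.2 (by push_cast; positivity)
  have hs2 : (0 : ℝ) < Real.sqrt ((g * b.2 : ℕ) : ℝ) := Real.sqrt_pos.2 (by push_cast; positivity)
  have hs3 : (0 : ℝ) < Real.sqrt ((b.1 : ℝ) * b.2) := by positivity
  have e3 : p (g * b.1) * p (g * b.2) / (g : ℝ) / Real.sqrt ((b.1 : ℝ) * b.2) =
      p (g * b.1) / Real.sqrt ((g * b.1 : ℕ) : ℝ) * (p (g * b.2) / Real.sqrt ((g * b.2 : ℕ) : ℝ)) := by
    rw [div_mul_div_comm, e2, div_div]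
  exact_mod_cast e3

/-- weight of the cross term -/
def q31 (W : ℝ → ℝ) (u : Fin 3 → ℝ) : ℝ := W (u 0 + u 2) * W (u 1 + u 2) * (1 - u 0 - u 1)

/-- weight of the error -/
def q32 (W : ℝ → ℝ) (u : Fin 3 → ℝ) : ℝ := W (u 0 + u 2) * W (u 1 + u 2)

/-- the terms -/
def tm3 (W : ℝ → ℝ) (T : ℝ) (k : ℕ) (y : (ℕ × ℕ) × ℕ) : ℝ :=
  aW (1 / 2) W T (y.2 * y.1.1) * aW (1 / 2) W T (y.2 * y.1.2) / y.2 /
    Real.sqrt ((y.1.1 : ℝ) * y.1.2) * Mt k (Yf k T) y.1.1 y.1.2 1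

lemma tm3_eq {W : ℝ → ℝ} {T : ℝ} {k : ℕ} (hY : 0 < Yf k T) {h l g : ℕ} (hh : 1 ≤ h) (hl : 1 ≤ l)
    (hg : 1 ≤ g) (hc : Nat.Coprime h l) :
    tm3 W T k ((h, l), g) = mw (lam3 (1 / 2)) ![h, l, g] *
      (q32 W (posI (Real.log T) ![h, l, g]) *
        (Real.log (Yf k T) + bk k - Real.log h - Real.log l)) := by
  have h0 : (0 : ℝ) < h := by exact_mod_cast hh
  have l0 : (0 : ℝ) < l := by exact_mod_cast hl
  have g0 : (0 : ℝ) < g := by exact_mod_cast hg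
  have hcond : (∀ i, (![h, l, g] : Fin 3 → ℕ) i ≠ 0) ∧
      Nat.Coprime ((![h, l, g] : Fin 3 → ℕ) 0) ((![h, l, g] : Fin 3 → ℕ) 1) := by
    refine ⟨?_, hc⟩
    intro i
    fin_cases i
    · exact (show h ≠ 0 by omega)
    · exact (show l ≠ 0 by omega)
    · exact (show g ≠ 0 by omega)
  rw [mw_lam3, if_pos hcond]
  unfold tm3 q32 posI Mt hp mp
  simp only [Matrix.cons_val_zero, Matrix.cons_val_one, Matrix.cons_val, aW_apply]
  have e1 : h / Nat.gcd h 1 = h := by rw [Nat.gcd_one_right, Nat.div_one]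
  have e2 : l * (1 / Nat.gcd h 1) = l := by rw [Nat.gcd_one_right, Nat.div_one, mul_one]
  rw [e1, e2]
  have hlog : Real.log (Yf k T / ((h : ℝ) * l)) =
      Real.log (Yf k T) - Real.log h - Real.log l := by
    rw [Real.log_div hY.ne' (by positivity), Real.log_mul h0.ne' l0.ne']
    ring
  have hl1 : Real.log ((g * h : ℕ) : ℝ) / Real.log T =
      Real.log h / Real.log T + Real.log g / Real.log T := by
    rw [Nat.cast_mul, Real.log_mul g0.ne' h0.ne', add_div]; ring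
  have hl2 : Real.log ((g * l : ℕ) : ℝ) / Real.log T =
      Real.log l / Real.log T + Real.log g / Real.log T := by
    rw [Nat.cast_mul, Real.log_mul g0.ne' l0.ne', add_div]; ring
  rw [hlog, hl1, hl2, mul_comm g h, mul_comm g l]
  have hs : Real.sqrt ((h : ℝ) * l) * Real.sqrt ((h : ℝ) * l) = h * l :=
    Real.mul_self_sqrt (by positivity)
  have hs0 : 0 < Real.sqrt ((h : ℝ) * l) := by positivity
  push_cast
  have e3 : ∀ D1 D2 w1 w2 X : ℝ, D1 * w1 * (D2 * w2) / g / Real.sqrt ((h : ℝ) * l) *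
      (X / Real.sqrt ((h : ℝ) * l)) = D1 * D2 * (1 / ((h : ℝ) * l * g)) * (w1 * w2 * X) := by
    intro D1 D2 w1 w2 X
    calc _ = D1 * D2 * (w1 * w2 * X) / g / (Real.sqrt ((h : ℝ) * l) * Real.sqrt ((h : ℝ) * l)) := by
          field_simp
      _ = _ := by rw [hs]; field_simp
  rw [e3]
  ring

lemma mw3_nonneg (b : Fin 3 → ℕ) : 0 ≤ mw (lam3 (1 / 2)) b :=
  Pool.Agent.TH535.mw_nonneg' (lam3_LW (by norm_num)).1 b

lemma cross3_eq {W : ℝ → ℝ} {θ : ℝ} (hW : W1 W θ) (hθ : 0 < θ) {T : ℝ} (hT : 1 < T) {k : ℕ}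
    (hY : 0 < Yf k T) :
    HasSum (fun b : Fin 3 → ℕ => mw (lam3 (1 / 2)) b *
      (q32 W (posI (Real.log T) b) * (Real.log (Yf k T) + bk k - Real.log (b 0) - Real.log (b 1))))
      (Ms k (Yf k T) 1 (fun _ => 1) (S3 ⌊T ^ θ⌋₊) (c3 (aW (1 / 2) W T) ⌊T ^ θ⌋₊)) := by
  classical
  have hT0 : 0 < T := by linarith
  have hL : 0 < Real.log T := Real.log_pos hT
  set L := Real.log T with hLd
  set N := ⌊T ^ θ⌋₊ with hN
  set G : (Fin 3 → ℕ) → ℝ := fun b => mw (lam3 (1 / 2)) b *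
      (q32 W (posI L b) * (Real.log (Yf k T) + bk k - Real.log (b 0) - Real.log (b 1))) with hG
  have h1 : Ms k (Yf k T) 1 (fun _ => 1) (S3 N) (c3 (aW (1 / 2) W T) N) =
      ∑ y ∈ S3 N ×ˢ Icc 1 N, tm3 W T k y := by
    unfold Ms
    rw [sum_product]
    refine sum_congr rfl fun b _ => ?_
    simp only [Icc_self, sum_singleton, Nat.cast_one, Real.sqrt_one, div_one, one_mul]
    unfold c3 tm3
    rw [sum_div, sum_mul]
  have hinj : ∀ y ∈ S3 N ×ˢ Icc 1 N, ∀ z ∈ S3 N ×ˢ Icc 1 N,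
      (![y.1.1, y.1.2, y.2] : Fin 3 → ℕ) = ![z.1.1, z.1.2, z.2] → y = z := by
    intro y _ z _ h
    have a0 := congrFun h 0
    have a1 := congrFun h 1
    have a2 := congrFun h 2
    simp only [Matrix.cons_val_zero, Matrix.cons_val_one, Matrix.cons_val] at a0 a1 a2
    exact Prod.ext (Prod.ext a0 a1) a2
  have h2 : ∑ y ∈ S3 N ×ˢ Icc 1 N, tm3 W T k y =
      ∑ b ∈ (S3 N ×ˢ Icc 1 N).image (fun y => (![y.1.1, y.1.2, y.2] : Fin 3 → ℕ)), G b := by
    rw [sum_image hinj]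
    refine sum_congr rfl fun y hy => ?_
    obtain ⟨⟨h, l⟩, g⟩ := y
    rw [mem_product, mem_Icc] at hy
    obtain ⟨hb, hg, -⟩ := hy
    obtain ⟨hh, -, hl, -, hc⟩ := S3_prop hb
    rw [tm3_eq hY hh hl hg hc, hG]
    simp only [Matrix.cons_val_zero, Matrix.cons_val_one]
    rfl
  rw [h1, h2]
  refine hasSum_sum_of_ne_finset_zero ?_
  intro b hb
  rw [hG]
  simp only
  by_cases hw : (∀ i, b i ≠ 0) ∧ Nat.Coprime (b 0) (b 1)
  · obtain ⟨hne, hc⟩ := hw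
    have n0 := Nat.pos_of_ne_zero (hne 0)
    have n1 := Nat.pos_of_ne_zero (hne 1)
    have n2 := Nat.pos_of_ne_zero (hne 2)
    have b0 : (0 : ℝ) < b 0 := by exact_mod_cast n0
    have b1 : (0 : ℝ) < b 1 := by exact_mod_cast n1
    have b2 : (0 : ℝ) < b 2 := by exact_mod_cast n2
    have key : ∀ i : Fin 3, b i ≠ 0 → N < b i * b 2 → θ ≤ posI L b i + posI L b 2 := by
      intro i hi h
      have bi : (0 : ℝ) < b i := by exact_mod_cast Nat.pos_of_ne_zero hi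
      unfold posI
      rw [← add_div, ← Real.log_mul bi.ne' b2.ne', le_div_iff₀ hL, ← Real.log_rpow hT0]
      apply Real.log_le_log (by positivity)
      have : T ^ θ < ((b i * b 2 : ℕ) : ℝ) := by
        rwa [hN, Nat.floor_lt (by positivity)] at h
      push_cast at this
      exact this.le
    have hz : q32 W (posI L b) = 0 := by
      unfold q32
      by_cases c1 : b 0 * b 2 ≤ N
      · by_cases c2 : b 1 * b 2 ≤ N
        · exfalso
          apply hb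
          rw [mem_image]
          refine ⟨((b 0, b 1), b 2), ?_, ?_⟩
          · unfold S3
            rw [mem_product, mem_filter, mem_product, mem_Icc, mem_Icc, mem_Icc]
            have d0 : b 0 ≤ b 0 * b 2 := Nat.le_mul_of_pos_right _ n2
            have d1 : b 1 ≤ b 1 * b 2 := Nat.le_mul_of_pos_right _ n2
            have d2 : b 2 ≤ b 0 * b 2 := Nat.le_mul_of_pos_left _ n0
            exact ⟨⟨⟨⟨n0, d0.trans c1⟩, ⟨n1, d1.trans c2⟩⟩, hc⟩, ⟨n2, d2.trans c1⟩⟩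
          · funext i
            fin_cases i <;> rfl
        · rw [hW.z _ (key 1 (hne 1) (not_le.1 c2)), mul_zero]
      · rw [hW.z _ (key 0 (hne 0) (not_le.1 c1)), zero_mul]
    rw [hz]; ring
  · rw [mw_lam3, if_neg hw, zero_mul]

lemma q31_cont {W : ℝ → ℝ} (hW : Continuous W) : Continuous (q31 W) := by
  unfold q31
  fun_prop

lemma q32_cont {W : ℝ → ℝ} (hW : Continuous W) : Continuous (q32 W) := by
  unfold q32
  fun_prop

/-- the limit of the cross sum -/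
def I3 (W : ℝ → ℝ) : ℝ := ∫ u : Fin 3 → ℝ, GdI (m3 (1 / 2)) u * q31 W u

theorem cross3_lower {W : ℝ → ℝ} {θ : ℝ} (hW : W1 W θ) (hθ : 0 < θ)
    (c : ℝ) (hc : c < aF (3 / 2) * I3 W) : ∀ᶠ T : ℝ in atTop, ∀ k : ℕ, kr' T k →
    c * Real.log T ^ (9 / 4 : ℝ) ≤
      Ms k (Yf k T) 1 (fun _ => 1) (S3 ⌊T ^ θ⌋₊) (c3 (aW (1 / 2) W T) ⌊T ^ θ⌋₊) := by
  have hm : ∀ i, 0 < m3 (1 / 2) i := by
    intro i; fin_cases i
    · show (0 : ℝ) < 1 / 2; norm_num
    · show (0 : ℝ) < 1 / 2; norm_num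
    · show (0 : ℝ) < (1 / 2) ^ 2; norm_num
  have hms : ∑ i, m3 (1 / 2) i = (5 / 4 : ℝ) := by
    rw [Fin.sum_univ_three]
    show (1 / 2 : ℝ) + 1 / 2 + (1 / 2) ^ 2 = 5 / 4
    norm_num
  have v2 : ∀ u : Fin 3 → ℝ, (∀ i, 0 ≤ u i) → (∃ i, θ ≤ u i) → q32 W u = 0 := by
    rintro u hu ⟨i, hi⟩
    have h0 := hu 0
    have h1 := hu 1
    have h2 := hu 2
    unfold q32
    fin_cases i
    · have : θ ≤ u 0 := hi
      rw [hW.z _ (by linarith), zero_mul]
    · have : θ ≤ u 1 := hi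
      rw [hW.z (u 1 + u 2) (by linarith), mul_zero]
    · have : θ ≤ u 2 := hi
      rw [hW.z _ (by linarith), zero_mul]
  have v1 : ∀ u : Fin 3 → ℝ, (∀ i, 0 ≤ u i) → (∃ i, θ ≤ u i) → q31 W u = 0 := by
    intro u hu hi
    have e : q31 W u = q32 W u * (1 - u 0 - u 1) := rfl
    rw [e, v2 u hu hi, zero_mul]
  have hconst := lam3_const (a := 1 / 2) (by norm_num)
  rw [show (1 / 2 : ℝ) + 1 = 3 / 2 by norm_num] at hconst
  have hLW := (lam3_LW (a := 1 / 2) (by norm_num)).1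
  have hA := (aF_pos (κ := 3 / 2) (by norm_num)).le
  obtain ⟨s1, k1⟩ := kar hm hLW (aF (3 / 2)) hconst hA (q31 W) (q31_cont hW.cont) θ v1 hθ.le
  obtain ⟨s2, k2⟩ := kar hm hLW (aF (3 / 2)) hconst hA (q32 W) (q32_cont hW.cont) θ v2 hθ.le
  change Tendsto _ atTop (𝓝 (aF (3 / 2) * I3 W)) at k1
  rw [hms] at k1 k2
  set XX := aF (3 / 2) * I3 W with hXX
  set Z := aF (3 / 2) * ∫ u : Fin 3 → ℝ, GdI (m3 (1 / 2)) u * q32 W u with hZ
  set d := (XX - c) / 2 with hd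
  have hd0 : 0 < d := by rw [hd]; linarith
  have e1 := (Real.tendsto_log_atTop).eventually (k1.eventually_const_lt
    (show c + d < XX by rw [hd]; linarith))
  have e2 := (Real.tendsto_log_atTop).eventually (k2.eventually_lt_const
    (show Z < Z + 1 by linarith))
  have e3 := (Real.tendsto_log_atTop).eventually_ge_atTop (6 * (|Z| + 1) / d)
  filter_upwards [e1, e2, e3, eventually_gt_atTop (Real.exp 1)] with T h1 h2 h3 hTe k hk
  have hT : 1 < T := lt_trans (by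
    have := Real.add_one_lt_exp (show (1 : ℝ) ≠ 0 by norm_num)
    linarith) hTe
  have hT0 : 0 < T := by linarith
  have hL1 : 1 < Real.log T := by
    rw [Real.lt_log_iff_exp_lt hT0]; exact hTe
  have hL0 : 0 < Real.log T := by linarith
  have hk1 : 1 ≤ k := by
    have : (1 : ℝ) ≤ k := by
      refine le_trans ?_ hk.1
      nlinarith
    exact_mod_cast this
  have hk0 : (0 : ℝ) < k := by exact_mod_cast hk1
  have hY : 0 < Yf k T := by
    unfold Yf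
    have := Real.pi_pos
    positivity
  have hD := bk_bound hk1 hT0
  have hS := cross3_eq hW hθ hT hY
  rw [← hS.tsum_eq]
  set L := Real.log T with hLd
  have s1' := s1 L hL0
  have s2' := s2 L hL0
  have hP : 0 < L ^ (5 / 4 : ℝ) := by positivity
  rw [lt_div_iff₀ hP] at h1
  rw [div_lt_iff₀ hP] at h2
  set P := L ^ (5 / 4 : ℝ) with hPd
  have hLP : L ^ (9 / 4 : ℝ) = P * L := by
    rw [hPd, ← Real.rpow_add_one hL0.ne']; norm_num
  rw [hLP]
  set S1 := ∑' b, mw (lam3 (1 / 2)) b * q31 W (posI L b) with hS1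
  set S2 := ∑' b, mw (lam3 (1 / 2)) b * q32 W (posI L b) with hS2
  have hcmp : L * S1 - 6 * S2 ≤ ∑' b : Fin 3 → ℕ, mw (lam3 (1 / 2)) b *
      (q32 W (posI L b) * (Real.log (Yf k T) + bk k - Real.log (b 0) - Real.log (b 1))) := by
    rw [hS1, hS2, ← tsum_mul_left, ← tsum_mul_left, ← (s1'.mul_left L).tsum_sub (s2'.mul_left 6)]
    refine Summable.tsum_le_tsum (fun b => ?_) ((s1'.mul_left L).sub (s2'.mul_left 6)) hS.summable
    have hw := mw3_nonneg b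
    have hq : 0 ≤ q32 W (posI L b) := mul_nonneg (hW.nn _) (hW.nn _)
    have e : q31 W (posI L b) = q32 W (posI L b) * (1 - posI L b 0 - posI L b 1) := rfl
    have e5 : Real.log (Yf k T) + bk k - Real.log (b 0) - Real.log (b 1) =
        L * (1 - posI L b 0 - posI L b 1) + (Real.log (Yf k T) + bk k - L) := by
      unfold posI
      field_simp
      ring
    rw [e, e5]
    have h6 := (abs_le.1 hD).1
    have h7 : 0 ≤ mw (lam3 (1 / 2)) b * q32 W (posI L b) *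
        ((Real.log (Yf k T) + bk k - L) + 6) := mul_nonneg (mul_nonneg hw hq) (by linarith)
    linarith
  refine le_trans ?_ hcmp
  have h5 : 6 * (Z + 1) ≤ d * L := by
    rw [div_le_iff₀ hd0] at h3
    have := le_abs_self Z
    linarith
  have a1 : L * ((c + d) * P) ≤ L * S1 := mul_le_mul_of_nonneg_left h1.le hL0.le
  have a2 : 6 * (Z + 1) * P ≤ d * L * P := mul_le_mul_of_nonneg_right h5 hP.le
  linarith

end

end Pool.Agent.Y756.T
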